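import Pool.Agent.H53.CE.Ret

namespace Pool.Agent.H53.CE

/-- A retract of a finitely presented group is finitely presented. -/
theorem fp_retract {G H : Type} [Group G] [Group H] (i : H →* G) (r : G →* H)
    (h : ∀ a, r (i a) = a) (hG : Group.IsFinitelyPresented G) : Group.IsFinitelyPresented H := by
  obtain ⟨n, φ, hφ, hker⟩ := hG.out
  refine Group.IsFinitelyPresented.of_surjective r (fun a => ⟨i a, h a⟩) ?_
  let T : Set G := Set.range (fun k : Fin n => φ (FreeGroup.of k) * (i (r (φ (FreeGroup.of k))))⁻¹)
  refine ⟨T, Set.finite_range _, ?_⟩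
  apply le_antisymm
  · apply Subgroup.normalClosure_le_normal
    rintro _ ⟨k, rfl⟩
    change r _ = 1
    rw [_root_.map_mul, _root_.map_inv, h, mul_inv_cancel]
  · intro g hg
    rw [MonoidHom.mem_ker] at hg
    let N := Subgroup.normalClosure T
    have key : (QuotientGroup.mk' N).comp φ
        = ((QuotientGroup.mk' N).comp (i.comp r)).comp φ := by
      refine FreeGroup.ext_hom _ _ (fun k => ?_)
      have h1 : φ (FreeGroup.of k) * (i (r (φ (FreeGroup.of k))))⁻¹ ∈ N :=
        Subgroup.subset_normalClosure ⟨k, rfl⟩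
      have h2 := (QuotientGroup.eq_one_iff _).mpr h1
      change (QuotientGroup.mk (φ (FreeGroup.of k)) : G ⧸ N)
        = QuotientGroup.mk (i (r (φ (FreeGroup.of k))))
      rw [QuotientGroup.mk_mul, QuotientGroup.mk_inv] at h2
      exact mul_inv_eq_one.mp h2
    obtain ⟨w, rfl⟩ := hφ g
    have h3 := DFunLike.congr_fun key w
    rw [MonoidHom.comp_apply, MonoidHom.comp_apply, MonoidHom.comp_apply, MonoidHom.comp_apply, hg,
      _root_.map_one, _root_.map_one] at h3
    exact (QuotientGroup.eq_one_iff _).mp h3

/-- Centralizers are transported by isomorphisms. -/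
theorem fp_centralizer_equiv {G H : Type} [Group G] [Group H] (e : G ≃* H) (S : Set G)
    (h : Group.IsFinitelyPresented (Subgroup.centralizer (e '' S))) :
    Group.IsFinitelyPresented (Subgroup.centralizer S) := by
  have hmap : (Subgroup.centralizer (e '' S)).map e.symm.toMonoidHom = Subgroup.centralizer S := by
    ext g
    rw [Subgroup.mem_map]
    constructor
    · rintro ⟨x, hx, rfl⟩
      rw [Subgroup.mem_centralizer_iff] at hx ⊢
      intro s hs
      have := hx (e s) ⟨s, hs, rfl⟩
      apply e.injective
      simpa using this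
    · intro hg
      refine ⟨e g, ?_, by simp⟩
      rw [Subgroup.mem_centralizer_iff] at hg ⊢
      rintro _ ⟨s, hs, rfl⟩
      rw [← _root_.map_mul, ← _root_.map_mul, hg s hs]
  have := Group.IsFinitelyPresented.equiv (e.symm.subgroupMap (Subgroup.centralizer (e '' S)))
  rw [← hmap]
  exact this

/-- The isomorphism of outer automorphism groups induced by an isomorphism of groups. -/
noncomputable def outCongr {G H : Type} [Group G] [Group H] (e : G ≃* H) : Out G ≃* Out H :=
  QuotientGroup.congr (Inn G) (Inn H) (MulAut.congr e) (by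
    ext f
    rw [Subgroup.mem_map]
    constructor
    · rintro ⟨_, ⟨g, rfl⟩, rfl⟩
      refine ⟨e g, ?_⟩
      ext x
      simp
    · rintro ⟨g, rfl⟩
      refine ⟨MulAut.conj (e.symm g), ⟨_, rfl⟩, ?_⟩
      ext x
      simp)

end Pool.Agent.H53.CE
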