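import Pool.Agent.H53.CE.Master

namespace Pool.Agent.H53.CE

open FreeGroup

set_option linter.unusedSectionVars false

variable {X Y : Type}

/-- The inclusion of the first factor. -/
def iX : FreeGroup X →* FreeGroup (X ⊕ Y) := FreeGroup.map Sum.inl

/-- The inclusion of the second factor. -/
def iY : FreeGroup Y →* FreeGroup (X ⊕ Y) := FreeGroup.map Sum.inr

@[simp] theorem iX_of (x : X) : (iX (of x) : FreeGroup (X ⊕ Y)) = of (Sum.inl x) := by simp [iX]
@[simp] theorem iY_of (y : Y) : (iY (of y) : FreeGroup (X ⊕ Y)) = of (Sum.inr y) := by simp [iY]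

/-- Kill the second factor. -/
def pX : FreeGroup (X ⊕ Y) →* FreeGroup X := FreeGroup.lift (Sum.elim of (fun _ => 1))

@[simp] theorem pX_inl (x : X) : pX (of (Sum.inl x) : FreeGroup (X ⊕ Y)) = of x := by
  rw [pX, FreeGroup.lift_apply_of]; rfl
@[simp] theorem pX_inr (y : Y) : pX (of (Sum.inr y) : FreeGroup (X ⊕ Y)) = 1 := by
  rw [pX, FreeGroup.lift_apply_of]; rfl

/-- Kill the first factor. -/
def kap : FreeGroup (X ⊕ Y) →* FreeGroup (X ⊕ Y) :=
  FreeGroup.lift (Sum.elim (fun _ => 1) (fun y => of (Sum.inr y)))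

@[simp] theorem kap_inl (x : X) : kap (of (Sum.inl x) : FreeGroup (X ⊕ Y)) = 1 := by
  rw [kap, FreeGroup.lift_apply_of]; rfl
@[simp] theorem kap_inr (y : Y) :
    kap (of (Sum.inr y) : FreeGroup (X ⊕ Y)) = of (Sum.inr y) := by
  rw [kap, FreeGroup.lift_apply_of]; rfl

theorem pX_iX (v : FreeGroup X) : pX (iX v : FreeGroup (X ⊕ Y)) = v := by
  have : (pX : FreeGroup (X ⊕ Y) →* FreeGroup X).comp iX = MonoidHom.id _ := by
    ext x
    simp
  exact DFunLike.congr_fun this v

theorem pX_kap (v : FreeGroup (X ⊕ Y)) : pX (kap v) = 1 := by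
  have : (pX : FreeGroup (X ⊕ Y) →* FreeGroup X).comp kap = 1 := by
    ext a
    rcases a with x | y <;> simp
  exact DFunLike.congr_fun this v

/-- The endomorphism `x ↦ t σ(x) t⁻¹`, `y ↦ y`. -/
def mk (t : FreeGroup (X ⊕ Y)) (s : FreeGroup X →* FreeGroup X) :
    FreeGroup (X ⊕ Y) →* FreeGroup (X ⊕ Y) :=
  FreeGroup.lift (Sum.elim (fun x => t * iX (s (of x)) * t⁻¹) (fun y => of (Sum.inr y)))

@[simp] theorem mk_inl (t : FreeGroup (X ⊕ Y)) (s : FreeGroup X →* FreeGroup X) (x : X) :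
    mk t s (of (Sum.inl x)) = t * iX (s (of x)) * t⁻¹ := by
  rw [mk, FreeGroup.lift_apply_of]; rfl
@[simp] theorem mk_inr (t : FreeGroup (X ⊕ Y)) (s : FreeGroup X →* FreeGroup X) (y : Y) :
    mk t s (of (Sum.inr y)) = of (Sum.inr y) := by
  rw [mk, FreeGroup.lift_apply_of]; rfl

theorem mk_iX (t : FreeGroup (X ⊕ Y)) (s : FreeGroup X →* FreeGroup X) (v : FreeGroup X) :
    mk t s (iX v) = t * iX (s v) * t⁻¹ := by
  have : (mk t s).comp iX = ((MulAut.conj t).toMonoidHom.comp iX).comp s := by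
    ext x
    simp
  exact DFunLike.congr_fun this v

section Second

variable [DecidableEq Y] (z : Y)

/-- The second embedding, the letter `z` becomes the shift. -/
def eta2 : FreeGroup (X ⊕ Y) →* G (X ⊕ Y) ℤ :=
  FreeGroup.lift (Sum.elim (fun x => ⟨of (Sum.inl x, 0), 1⟩)
    (fun y => if y = z then ⟨1, Multiplicative.ofAdd 1⟩ else ⟨of (Sum.inr y, 0), 1⟩))

@[simp] theorem eta2_inl (x : X) :
    eta2 (X := X) z (of (Sum.inl x)) = ⟨of (Sum.inl x, 0), 1⟩ := by
  rw [eta2, FreeGroup.lift_apply_of]; rfl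
theorem eta2_inr (y : Y) : eta2 (X := X) z (of (Sum.inr y)) =
    if y = z then ⟨1, Multiplicative.ofAdd 1⟩ else ⟨of (Sum.inr y, 0), 1⟩ := by
  rw [eta2, FreeGroup.lift_apply_of]; rfl

/-- The left inverse of the second embedding. -/
def back : G (X ⊕ Y) ℤ →* FreeGroup (X ⊕ Y) :=
  SemidirectProduct.lift
    (FreeGroup.lift (fun p => (of (Sum.inr z)) ^ p.2 * of p.1 * ((of (Sum.inr z)) ^ p.2)⁻¹))
    (zpowersHom _ (of (Sum.inr z)))
    (by
      intro s
      ext ⟨a, j⟩
      simp only [MonoidHom.comp_apply, MulEquiv.coe_toMonoidHom, shAct_apply, sh_of,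
        FreeGroup.lift_apply_of, MulAut.conj_apply, zpowersHom_apply]
      rw [add_comm j, zpow_add]
      group)

theorem back_eta2 (w : FreeGroup (X ⊕ Y)) : back z (eta2 z w) = w := by
  have : (back z).comp (eta2 z) = MonoidHom.id (FreeGroup (X ⊕ Y)) := by
    ext a
    rcases a with x | y
    · simp [back, SemidirectProduct.lift]
    · rw [MonoidHom.comp_apply, eta2_inr]
      split_ifs with h
      · subst h
        simp [back, SemidirectProduct.lift]
      · simp [back, SemidirectProduct.lift]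
  exact DFunLike.congr_fun this w

/-- The map on `K` which corresponds to `x ↦ z σ(x) z⁻¹`. -/
def sharp (s : FreeGroup X →* FreeGroup X) : K (X ⊕ Y) ℤ →* K (X ⊕ Y) ℤ :=
  FreeGroup.lift (fun p => match p.1 with
    | Sum.inl x => lev (p.2 + 1) (iX (s (of x)))
    | Sum.inr y => of (Sum.inr y, p.2))

@[simp] theorem sharp_inl (s : FreeGroup X →* FreeGroup X) (x : X) (j : ℤ) :
    sharp (Y := Y) s (of (Sum.inl x, j)) = lev (j + 1) (iX (s (of x))) := by
  rw [sharp, FreeGroup.lift_apply_of]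
@[simp] theorem sharp_inr (s : FreeGroup X →* FreeGroup X) (y : Y) (j : ℤ) :
    sharp s (of (Sum.inr y, j)) = of (Sum.inr y, j) := by
  rw [sharp, FreeGroup.lift_apply_of]

theorem sharp_lev (s : FreeGroup X →* FreeGroup X) (j : ℤ) (v : FreeGroup X) :
    sharp (Y := Y) s (lev j (iX v)) = lev (j + 1) (iX (s v)) := by
  have : (sharp (Y := Y) s).comp ((lev j).comp iX) = ((lev (j + 1)).comp iX).comp s := by
    ext x
    simp
  exact DFunLike.congr_fun this v

theorem sharp_sh (s : FreeGroup X →* FreeGroup X) (t : ℤ) (k : K (X ⊕ Y) ℤ) :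
    sharp s (sh t k) = sh t (sharp s k) := by
  have : (sharp s).comp (sh t) = (sh t : K (X ⊕ Y) ℤ →* K (X ⊕ Y) ℤ).comp (sharp s) := by
    ext ⟨a, j⟩
    rcases a with x | y
    · simp [sh_lev, add_right_comm]
    · simp
  exact DFunLike.congr_fun this k

theorem eta2_iX (v : FreeGroup X) : eta2 z (iX v) = ⟨lev 0 (iX v), 1⟩ := by
  have : (eta2 z).comp iX = (SemidirectProduct.inl : K (X ⊕ Y) ℤ →* G (X ⊕ Y) ℤ).comp
      ((lev 0).comp iX) := by
    ext x <;> simp
  exact DFunLike.congr_fun this v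

theorem eta2_z : eta2 (X := X) z (of (Sum.inr z)) = ⟨1, Multiplicative.ofAdd 1⟩ := by
  rw [eta2_inr, if_pos rfl]

theorem eta2_mk (s : FreeGroup X →* FreeGroup X) (w : FreeGroup (X ⊕ Y)) :
    (eta2 z (mk (of (Sum.inr z)) s w)).left = sharp s (eta2 z w).left ∧
    (eta2 z (mk (of (Sum.inr z)) s w)).right = (eta2 z w).right := by
  have hc : ∀ t : Multiplicative ℤ,
      ((sharp s).comp (shAct t).toMonoidHom : K (X ⊕ Y) ℤ →* K (X ⊕ Y) ℤ)
      = ((shAct (MonoidHom.id (Multiplicative ℤ) t)).toMonoidHom).comp (sharp s) := by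
    intro t
    refine MonoidHom.ext (fun k => ?_)
    simp [sharp_sh]
  have key : (eta2 z).comp (mk (of (Sum.inr z)) s)
      = (SemidirectProduct.map (sharp s) (MonoidHom.id _) hc).comp (eta2 z) := by
    refine FreeGroup.ext_hom _ _ (fun a => ?_)
    rcases a with x | y
    · rw [MonoidHom.comp_apply, MonoidHom.comp_apply, mk_inl, _root_.map_mul, _root_.map_mul,
        _root_.map_inv, eta2_iX, eta2_z, eta2_inl]
      ext
      · simp [sh_lev]
      · simp
    · rw [MonoidHom.comp_apply, MonoidHom.comp_apply, mk_inr, eta2_inr]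
      split_ifs with h
      · ext <;> simp
      · ext <;> simp
  have h := DFunLike.congr_fun key w
  rw [MonoidHom.comp_apply, MonoidHom.comp_apply] at h
  rw [h]
  simp

/-- Kill the letters of the first kind outside the window, keep the others. -/
def kz (M : ℤ) : K (X ⊕ Y) ℤ →* K (X ⊕ Y) ℤ :=
  FreeGroup.lift (fun p => match p.1 with
    | Sum.inl x => if |p.2| ≤ M then of (Sum.inl x, p.2) else 1
    | Sum.inr y => of (Sum.inr y, p.2))

@[simp] theorem kz_inl (M : ℤ) (x : X) (j : ℤ) :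
    kz (Y := Y) M (of (Sum.inl x, j)) = if |j| ≤ M then of (Sum.inl x, j) else 1 := by
  rw [kz, FreeGroup.lift_apply_of]
@[simp] theorem kz_inr (M : ℤ) (y : Y) (j : ℤ) :
    kz (X := X) M (of (Sum.inr y, j)) = of (Sum.inr y, j) := by
  rw [kz, FreeGroup.lift_apply_of]

theorem kz_lev_out {M j : ℤ} (h : ¬ |j| ≤ M) (v : FreeGroup X) :
    kz (Y := Y) M (lev j (iX v)) = 1 := by
  have : (kz (Y := Y) M).comp ((lev j).comp iX) = (1 : FreeGroup X →* K (X ⊕ Y) ℤ) := by
    ext x
    simp [h]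
  exact DFunLike.congr_fun this v

theorem exists_kz (k : K (X ⊕ Y) ℤ) : ∃ M : ℤ, 0 ≤ M ∧ ∀ M', M ≤ M' → kz M' k = k := by
  induction k using FreeGroup.induction_on with
  | C1 => exact ⟨0, le_rfl, fun M' _ => by simp⟩
  | of p =>
    obtain ⟨a, j⟩ := p
    refine ⟨|j|, abs_nonneg j, fun M' h => ?_⟩
    rcases a with x | y
    · exact (kz_inl M' x j).trans (if_pos h)
    · exact kz_inr M' y j
  | inv_of p ih =>
    obtain ⟨M, h0, h⟩ := ih
    refine ⟨M, h0, fun M' h' => ?_⟩
    rw [_root_.map_inv, h M' h']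
  | mul x y hx hy =>
    obtain ⟨M, h0, h⟩ := hx
    obtain ⟨M2, h02, h2⟩ := hy
    refine ⟨max M M2, le_max_of_le_left h0, fun M' h' => ?_⟩
    rw [_root_.map_mul, h M' (le_trans (le_max_left _ _) h'), h2 M' (le_trans (le_max_right _ _) h')]

/-- Kill all letters of the first kind. -/
def kk : K (X ⊕ Y) ℤ →* K (X ⊕ Y) ℤ :=
  FreeGroup.lift (fun p => match p.1 with
    | Sum.inl _ => 1
    | Sum.inr y => of (Sum.inr y, p.2))

@[simp] theorem kk_inl (x : X) (j : ℤ) : kk (Y := Y) (of (Sum.inl x, j)) = 1 := by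
  rw [kk, FreeGroup.lift_apply_of]
@[simp] theorem kk_inr (y : Y) (j : ℤ) : kk (X := X) (of (Sum.inr y, j)) = of (Sum.inr y, j) := by
  rw [kk, FreeGroup.lift_apply_of]

/-- The iterate of `sharp`. -/
def shN (s : FreeGroup X →* FreeGroup X) : ℕ → (K (X ⊕ Y) ℤ →* K (X ⊕ Y) ℤ)
  | 0 => MonoidHom.id _
  | N + 1 => (sharp s).comp (shN s N)

theorem shN_lev (s : FreeGroup X →* FreeGroup X) (N : ℕ) (j : ℤ) (v : FreeGroup X) :
    ∃ v', shN (Y := Y) s N (lev j (iX v)) = lev (j + N) (iX v') := by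
  induction N with
  | zero => exact ⟨v, by simp [shN]⟩
  | succ N ih =>
    obtain ⟨v', h⟩ := ih
    refine ⟨s v', ?_⟩
    rw [shN, MonoidHom.comp_apply, h, sharp_lev]
    congr 1
    push_cast
    ring_nf

theorem shN_inr (s : FreeGroup X →* FreeGroup X) (N : ℕ) (y : Y) (j : ℤ) :
    shN s N (of (Sum.inr y, j)) = of (Sum.inr y, j) := by
  induction N with
  | zero => simp [shN]
  | succ N ih => rw [shN, MonoidHom.comp_apply, ih, sharp_inr]

theorem kz_shN (s : FreeGroup X →* FreeGroup X) {M : ℤ} {N : ℕ} (h : 2 * M < N)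
    (k : K (X ⊕ Y) ℤ) : kz M (shN s N (kz M k)) = kk k := by
  have : (kz M).comp ((shN s N).comp (kz M)) = (kk : K (X ⊕ Y) ℤ →* K (X ⊕ Y) ℤ) := by
    refine FreeGroup.ext_hom _ _ (fun p => ?_)
    obtain ⟨a, j⟩ := p
    rcases a with x | y
    · rw [MonoidHom.comp_apply, MonoidHom.comp_apply, kz_inl, kk_inl]
      split_ifs with h1
      · have : (of (Sum.inl x, j) : K (X ⊕ Y) ℤ) = lev j (iX (of x)) := by simp
        rw [this]
        obtain ⟨v', hv⟩ := shN_lev (Y := Y) s N j (of x)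
        rw [hv]
        apply kz_lev_out
        intro h2
        have h3 := abs_le.mp h1
        have h4 := abs_le.mp h2
        omega
      · simp
    · rw [MonoidHom.comp_apply, MonoidHom.comp_apply, kz_inr, shN_inr, kz_inr, kk_inr]
  exact DFunLike.congr_fun this k

theorem kk_sh (t : ℤ) (k : K (X ⊕ Y) ℤ) : kk (sh t k) = sh t (kk k) := by
  have : (kk).comp (sh t) = (sh t : K (X ⊕ Y) ℤ →* K (X ⊕ Y) ℤ).comp kk := by
    ext ⟨a, j⟩
    rcases a with x | y <;> simp
  exact DFunLike.congr_fun this k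

theorem eta2_kap (w : FreeGroup (X ⊕ Y)) :
    eta2 z (kap w) = ⟨kk (eta2 z w).left, (eta2 z w).right⟩ := by
  have hc : ∀ t : Multiplicative ℤ,
      ((kk).comp (shAct t).toMonoidHom : K (X ⊕ Y) ℤ →* K (X ⊕ Y) ℤ)
      = ((shAct (MonoidHom.id (Multiplicative ℤ) t)).toMonoidHom).comp kk := by
    intro t
    refine MonoidHom.ext (fun k => ?_)
    simp [kk_sh]
  have key : (eta2 z).comp kap
      = (SemidirectProduct.map kk (MonoidHom.id _) hc).comp (eta2 z) := by
    refine FreeGroup.ext_hom _ _ (fun a => ?_)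
    rcases a with x | y
    · rw [MonoidHom.comp_apply, MonoidHom.comp_apply, kap_inl, eta2_inl]
      ext <;> simp
    · rw [MonoidHom.comp_apply, MonoidHom.comp_apply, kap_inr, eta2_inr]
      split_ifs with h
      · ext <;> simp
      · ext <;> simp
  have h := DFunLike.congr_fun key w
  rw [MonoidHom.comp_apply, MonoidHom.comp_apply] at h
  rw [h]
  ext <;> simp

/-- The fixed points of `x ↦ z σ(x) z⁻¹`, `y ↦ y` lie in the second factor. -/
theorem fix_eq_kap (s : FreeGroup X →* FreeGroup X) {w : FreeGroup (X ⊕ Y)}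
    (hw : mk (of (Sum.inr z)) s w = w) : kap w = w := by
  have h1 := (eta2_mk z s w).1
  rw [hw] at h1
  set k := (eta2 z w).left with hk
  have hN : ∀ N, shN s N k = k := by
    intro N
    induction N with
    | zero => simp [shN]
    | succ N ih => rw [shN, MonoidHom.comp_apply, ih, ← h1]
  obtain ⟨M, h0, hM⟩ := exists_kz k
  have hM := hM M le_rfl
  have h2 := kz_shN s (M := M) (N := (2 * M + 1).toNat) (by omega) k
  rw [hM, hN, hM] at h2
  have h3 : eta2 z (kap w) = eta2 z w := by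
    rw [eta2_kap, ← hk, ← h2]
  have h4 := congrArg (back z) h3
  rwa [back_eta2, back_eta2] at h4

end Second

end Pool.Agent.H53.CE
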