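import Pool.Agent.H53.CE.FP

/-!
Growth of the marked automorphism.
-/

namespace Pool.Agent.H53.CE

open FreeGroup

set_option linter.unusedSectionVars false

variable {X Y : Type} [DecidableEq X] [DecidableEq Y]

/-- The length of the conjugacy class of `w`: the least length of a reduced word that represents a
conjugate of `w`. -/
noncomputable def conjLen {A : Type} [DecidableEq A] (w : FreeGroup A) : ℕ :=
  sInf {m | ∃ g, m = (g * w * g⁻¹).norm}

theorem conjLen_le {A : Type} [DecidableEq A] (w : FreeGroup A) : conjLen w ≤ w.norm := by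
  apply Nat.sInf_le
  exact ⟨1, by simp⟩

theorem norm_map_le {A B : Type} [DecidableEq A] [DecidableEq B] (f : A → B) (w : FreeGroup A) :
    (FreeGroup.map f w).norm ≤ w.norm := by
  have h : FreeGroup.map f w = FreeGroup.mk (w.toWord.map (fun x => (f x.1, x.2))) := by
    conv_lhs => rw [← FreeGroup.mk_toWord (x := w)]
    rw [FreeGroup.map.mk]
  rw [h]
  refine FreeGroup.norm_mk_le.trans ?_
  rw [List.length_map]
  rfl

/-- A bound for the lengths of the images of the letters gives one for every word. -/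
theorem bound_word {A B : Type} [DecidableEq B] (f : ℕ → (FreeGroup A →* FreeGroup B)) (g : ℕ → ℕ)
    (h : ∀ a, ∃ C, ∀ k, (f k (of a)).norm ≤ C * g k) (w : FreeGroup A) :
    ∃ C, ∀ k, (f k w).norm ≤ C * g k := by
  induction w using FreeGroup.induction_on with
  | C1 => exact ⟨0, fun k => by simp⟩
  | of a => exact h a
  | inv_of a ih =>
    obtain ⟨C, hC⟩ := ih
    exact ⟨C, fun k => by rw [_root_.map_inv, norm_inv_eq]; exact hC k⟩
  | mul x y hx hy =>
    obtain ⟨C, hC⟩ := hx
    obtain ⟨D, hD⟩ := hy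
    refine ⟨C + D, fun k => ?_⟩
    rw [_root_.map_mul, Nat.add_mul]
    exact (FreeGroup.norm_mul_le _ _).trans (Nat.add_le_add (hC k) (hD k))

theorem mark_pow_iX (z : Y) (σ : MulAut (FreeGroup X)) (k : ℕ) (v : FreeGroup X) :
    (mark z σ ^ k) (iX v) = of (Sum.inr z) ^ k * iX ((σ ^ k) v) * (of (Sum.inr z) ^ k)⁻¹ := by
  induction k generalizing v with
  | zero => simp
  | succ k ih =>
    have h1 : mark z σ (iX v) = of (Sum.inr z) * iX (σ v) * (of (Sum.inr z))⁻¹ := by
      rw [mark_apply, mk_iX]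
      rfl
    have h2 : ∀ j : ℕ, (mark z σ ^ j) (of (Sum.inr z)) = of (Sum.inr z) := by
      intro j
      induction j with
      | zero => simp
      | succ j ihj =>
        rw [pow_succ, MulAut.mul_apply]
        have : mark z σ (of (Sum.inr z)) = of (Sum.inr z) := by
          rw [mark_apply]; simp
        rw [this, ihj]
    rw [pow_succ, MulAut.mul_apply, h1, _root_.map_mul, _root_.map_mul, _root_.map_inv, h2, ih,
      pow_succ σ k, MulAut.mul_apply, pow_succ' (of (Sum.inr z)) k]
    simp only [mul_inv_rev, mul_assoc]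

theorem mark_pow_inr (z : Y) (σ : MulAut (FreeGroup X)) (k : ℕ) (y : Y) :
    (mark z σ ^ k) (of (Sum.inr y)) = of (Sum.inr y) := by
  induction k with
  | zero => simp
  | succ j ihj =>
    rw [pow_succ, MulAut.mul_apply]
    have : mark z σ (of (Sum.inr y)) = of (Sum.inr y) := by
      rw [mark_apply]; simp
    rw [this, ihj]

/-- The marked automorphism grows at most like the given one, if this is at least linear. -/
theorem mark_growth (z : Y) (σ : MulAut (FreeGroup X)) (g : ℕ → ℕ) (hg : ∀ k, k ≤ g k)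
    (h : ∀ i, ∃ C, ∀ k, ((σ ^ k) (of i)).norm ≤ C * g k) (hg1 : ∀ k, 1 ≤ g k)
    (w : FreeGroup (X ⊕ Y)) : ∃ C, ∀ k, ((mark z σ ^ k) w).norm ≤ C * g k := by
  refine bound_word (fun k => (mark z σ ^ k).toMonoidHom) g ?_ w
  rintro (i | j)
  · obtain ⟨C, hC⟩ := h i
    refine ⟨2 + C, fun k => ?_⟩
    change ((mark z σ ^ k) (of (Sum.inl i))).norm ≤ _
    rw [← iX_of, mark_pow_iX]
    have h1 := FreeGroup.norm_mul_le (of (Sum.inr z) ^ k * iX ((σ ^ k) (of i)))
      ((of (Sum.inr z) : FreeGroup (X ⊕ Y)) ^ k)⁻¹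
    have h2 := FreeGroup.norm_mul_le (of (Sum.inr z) ^ k) (iX ((σ ^ k) (of i)) : FreeGroup (X ⊕ Y))
    have h3 : (iX ((σ ^ k) (of i)) : FreeGroup (X ⊕ Y)).norm ≤ _ := norm_map_le Sum.inl _
    have h4 := hC k
    have h5 := hg k
    rw [norm_inv_eq, norm_of_pow] at h1
    rw [norm_of_pow] at h2
    rw [Nat.add_mul]
    omega
  · refine ⟨1, fun k => ?_⟩
    change ((mark z σ ^ k) (of (Sum.inr j))).norm ≤ _
    rw [mark_pow_inr, norm_of, one_mul]
    exact hg1 k

theorem congr_pow {G H : Type} [Group G] [Group H] (e : G ≃* H) (α : MulAut G) (k : ℕ) (w : H) :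
    ((MulAut.congr e α) ^ k) w = e ((α ^ k) (e.symm w)) := by
  rw [← map_pow]
  rfl

end Pool.Agent.H53.CE
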