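import Pool.Agent.H53.CE.Fix

namespace Pool.Agent.H53.CE

open FreeGroup

set_option linter.unusedSectionVars false

variable {X Y : Type}

/-- The weight which vanishes on the first factor. -/
def e0 (e : Y → ℚ) : X ⊕ Y → ℚ := Sum.elim (fun _ => 0) e

theorem compat_mk (e : Y → ℚ) (z : Y) (hz : e z = 0) (s : FreeGroup X →* FreeGroup X) :
    Compat (e0 e) (mk (of (Sum.inr z)) s) := by
  have hX : ∀ v : FreeGroup X, eta (e0 e) (iX v : FreeGroup (X ⊕ Y))
      = SemidirectProduct.inl (lev 0 (iX v)) := by
    intro v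
    have : (eta (e0 (X := X) e)).comp iX = (SemidirectProduct.inl).comp ((lev 0).comp iX) := by
      ext x <;> simp [eta, e0]
    exact DFunLike.congr_fun this v
  have hZ : eta (e0 (X := X) e) (of (Sum.inr z)) = SemidirectProduct.inl (lev 0 (of (Sum.inr z)))
      := by
    ext <;> simp [eta, e0, hz]
  apply compat_of
  intro a
  rcases a with x | y
  · rw [mk_inl, _root_.map_mul, _root_.map_mul, _root_.map_inv, hX, hZ, ← _root_.map_inv,
      ← _root_.map_mul, ← _root_.map_mul, ← _root_.map_inv, ← _root_.map_mul, ← _root_.map_mul]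
    ext <;> simp [e0]
  · rw [mk_inr]
    ext <;> simp [eta]

/-- All weights at once. -/
def big : FreeGroup (X ⊕ Y) →* Multiplicative ((Y → ℚ) →ₗ[ℚ] ℚ) :=
  FreeGroup.lift (Sum.elim (fun _ => 1) (fun y => Multiplicative.ofAdd (LinearMap.proj y)))

theorem chi_eq_big (e : Y → ℚ) (u : FreeGroup (X ⊕ Y)) :
    (chi (e0 e) u).toAdd = (big u).toAdd e := by
  let ev : Multiplicative ((Y → ℚ) →ₗ[ℚ] ℚ) →* Multiplicative ℚ :=
    { toFun := fun f => Multiplicative.ofAdd (f.toAdd e)
      map_one' := rfl
      map_mul' := fun f g => rfl }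
  have : chi (e0 (X := X) e) = ev.comp big := by
    refine FreeGroup.ext_hom _ _ (fun a => ?_)
    rcases a with x | y
    · rw [MonoidHom.comp_apply, chi_of, big, FreeGroup.lift_apply_of]
      rfl
    · rw [MonoidHom.comp_apply, chi_of, big, FreeGroup.lift_apply_of]
      rfl
  rw [this]
  rfl

variable [Fintype X] [Fintype Y]

/-- A weight which kills finitely many given words and does not vanish on the image of the second
factor. -/
theorem exists_weight (hcard : Fintype.card X + 2 < Fintype.card Y) (z : Y)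
    (α : FreeGroup (X ⊕ Y) ≃* FreeGroup (X ⊕ Y)) (c : FreeGroup (X ⊕ Y)) :
    ∃ e : Y → ℚ, e z = 0 ∧ chi (e0 e) c = 1 ∧ ∃ y, chi (e0 e) (α (of (Sum.inr y))) ≠ 1 := by
  classical
  let f : Option (Option X) → ((Y → ℚ) →ₗ[ℚ] ℚ) := fun o => match o with
    | none => LinearMap.proj z
    | some none => (big c).toAdd
    | some (some x) => (big (α (of (Sum.inl x)))).toAdd
  have hker : LinearMap.ker (LinearMap.pi f) ≠ ⊥ := by
    apply LinearMap.ker_ne_bot_of_finrank_lt
    rw [Module.finrank_fintype_fun_eq_card, Module.finrank_fintype_fun_eq_card]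
    simp only [Fintype.card_option]
    omega
  obtain ⟨e, he, hne⟩ := Submodule.exists_mem_ne_zero_of_ne_bot hker
  rw [LinearMap.mem_ker] at he
  have h0 : ∀ o, f o e = 0 := fun o => congrFun he o
  have hz : e z = 0 := h0 none
  have hc : chi (e0 (X := X) e) c = 1 := by
    have := h0 (some none)
    rw [← ofAdd_toAdd (chi (e0 e) c), chi_eq_big]
    change Multiplicative.ofAdd ((big c).toAdd e) = 1
    change (big c).toAdd e = 0 at this
    rw [this]; rfl
  refine ⟨e, hz, hc, ?_⟩
  by_contra hcon
  push Not at hcon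
  apply hne
  have hall : (chi (e0 (X := X) e)).comp α.toMonoidHom = 1 := by
    refine FreeGroup.ext_hom _ _ (fun a => ?_)
    rcases a with x | y
    · have := h0 (some (some x))
      change (big (α (of (Sum.inl x)))).toAdd e = 0 at this
      rw [← chi_eq_big] at this
      change chi (e0 e) (α (of (Sum.inl x))) = 1
      rw [← ofAdd_toAdd (chi (e0 e) (α (of (Sum.inl x)))), this]; rfl
    · exact hcon y
  have hone : ∀ u, chi (e0 (X := X) e) u = 1 := by
    intro u
    have := DFunLike.congr_fun hall (α.symm u)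
    simpa using this
  funext y
  have := hone (of (Sum.inr y))
  rw [chi_of] at this
  exact congrArg Multiplicative.toAdd this

theorem key (hcard : Fintype.card X + 2 < Fintype.card Y) (z : Y)
    (s : FreeGroup X →* FreeGroup X) (α : FreeGroup (X ⊕ Y) ≃* FreeGroup (X ⊕ Y))
    (c : FreeGroup (X ⊕ Y))
    (h : ∀ y, α (of (Sum.inr y)) * c = c * mk (of (Sum.inr z)) s (α (of (Sum.inr y)))) :
    ∃ g, g = c * mk (of (Sum.inr z)) s g := by
  obtain ⟨e, hz, hc, y, hy⟩ := exists_weight hcard z α c
  exact master (e0 e) _ (compat_mk e z hz s) (h y) hc hy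

/-- The centralizer of the second factor is trivial. -/
theorem centralizer_trivial (hcard : Fintype.card X + 2 < Fintype.card Y)
    (c : FreeGroup (X ⊕ Y)) (h : ∀ y, of (Sum.inr y) * c = c * of (Sum.inr y)) : c = 1 := by
  classical
  have hY : 0 < Fintype.card Y := by omega
  obtain ⟨z⟩ := Fintype.card_pos_iff.mp hY
  obtain ⟨e, hz, hc, y, hy⟩ := exists_weight hcard z (MulEquiv.refl _) c
  exact eq_one_of_commute (e0 e) (h y) hc hy

end Pool.Agent.H53.CE
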