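import Pool.Agent.H53.CE.Win

namespace Pool.Agent.H53.CE

open FreeGroup

set_option linter.unusedSectionVars false

variable {A : Type}

/-- Kill the letters outside the window of size `M`. -/
noncomputable def ker (M : ℚ) : K A ℚ →* K A ℚ :=
  FreeGroup.lift (fun p => if |p.2| ≤ M then of p else 1)

theorem ker_of (M : ℚ) (a : A) (j : ℚ) :
    ker M (of (a, j)) = if |j| ≤ M then of (a, j) else 1 := by simp [ker]

theorem ker_lev_in {M j : ℚ} (h : |j| ≤ M) (v : FreeGroup A) : ker M (lev j v) = lev j v := by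
  have : (ker M).comp (lev j) = (lev j : FreeGroup A →* K A ℚ) := by
    ext a
    simp [ker_of, h]
  exact DFunLike.congr_fun this v

theorem ker_lev_out {M j : ℚ} (h : ¬ |j| ≤ M) (v : FreeGroup A) : ker M (lev j v) = 1 := by
  have : (ker M).comp (lev j) = (1 : FreeGroup A →* K A ℚ) := by
    ext a
    simp [ker_of, h]
  exact DFunLike.congr_fun this v

theorem ker_up (P : FreeGroup A →* FreeGroup A) (M : ℚ) (k : K A ℚ) :
    ker M (up P k) = up P (ker M k) := by
  have : (ker M).comp (up P) = (up P : K A ℚ →* K A ℚ).comp (ker M) := by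
    ext ⟨a, j⟩
    by_cases h : |j| ≤ M
    · simp [ker_of, h, ker_lev_in h]
    · simp [ker_of, h, ker_lev_out h]
  exact DFunLike.congr_fun this k

theorem exists_window (k : K A ℚ) : ∃ M : ℚ, 0 ≤ M ∧ ∀ M', M ≤ M' → ker M' k = k := by
  induction k using FreeGroup.induction_on with
  | C1 => exact ⟨0, le_rfl, fun M' _ => by simp⟩
  | of p =>
    obtain ⟨a, j⟩ := p
    refine ⟨|j|, abs_nonneg j, fun M' h => ?_⟩
    change ker M' (of (a, j)) = of (a, j)
    rw [ker_of, if_pos h]
  | inv_of p ih =>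
    obtain ⟨M, h0, h⟩ := ih
    refine ⟨M, h0, fun M' h' => ?_⟩
    rw [_root_.map_inv, h M' h']
  | mul x y hx hy =>
    obtain ⟨M, h0, h⟩ := hx
    obtain ⟨M2, h02, h2⟩ := hy
    refine ⟨max M M2, le_max_of_le_left h0, fun M' h' => ?_⟩
    rw [_root_.map_mul, h M' (le_trans (le_max_left _ _) h'), h2 M' (le_trans (le_max_right _ _) h')]

theorem ker_sh {M s : ℚ} (hs : 2 * M < |s|) {k : K A ℚ} (hk : ker M k = k) :
    ker M (sh s k) = 1 := by
  have : ((ker M).comp (sh s)).comp (ker M) = (1 : K A ℚ →* K A ℚ) := by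
    ext ⟨a, j⟩
    by_cases h : |j| ≤ M
    · have h2 : ¬ |j + s| ≤ M := by
        intro h3
        have h4 := abs_le.mp h
        have h5 := abs_le.mp h3
        have : |s| ≤ 2 * M := abs_le.mpr ⟨by linarith, by linarith⟩
        linarith
      simp [ker_of, h, h2]
    · simp [ker_of, h]
  have h2 := DFunLike.congr_fun this k
  simpa [hk] using h2

/-- The master lemma. -/
theorem master (e : A → ℚ) (P : FreeGroup A →* FreeGroup A) (hP : Compat e P)
    {b c : FreeGroup A} (h : b * c = c * P b) (hc : chi e c = 1) (hb : chi e b ≠ 1) :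
    ∃ g, g = c * P g := by
  obtain ⟨M, hM0, hM⟩ := exists_window (L e c)
  have hM := hM M le_rfl
  -- pass to a large power of b
  have hpow : ∀ N : ℕ, b ^ N * c = c * P (b ^ N) := by
    intro N
    induction N with
    | zero => simp
    | succ N ih => rw [pow_succ, mul_assoc, h, ← mul_assoc, ih, _root_.map_mul, mul_assoc]
  have hb' : (chi e b).toAdd ≠ 0 := fun h0 => hb (by
    rw [← ofAdd_toAdd (chi e b), h0]; rfl)
  obtain ⟨N, hN⟩ := exists_nat_gt (2 * M / |(chi e b).toAdd|)
  have hpos : 0 < |(chi e b).toAdd| := abs_pos.mpr hb'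
  have hN2 : 2 * M < |(chi e (b ^ N)).toAdd| := by
    rw [_root_.map_pow, toAdd_pow, nsmul_eq_mul, abs_mul, Nat.abs_cast]
    rwa [div_lt_iff₀ hpos] at hN
  have h1 := congrArg (L e) (hpow N)
  rw [L_mul, L_mul, hc, hP] at h1
  simp only [toAdd_one, sh_zero] at h1
  have h2 := congrArg (ker M) h1
  rw [_root_.map_mul, _root_.map_mul, ker_sh hN2 hM, mul_one, hM, ker_up] at h2
  refine ⟨rr (ker M (L e (b ^ N))), ?_⟩
  have h3 := congrArg rr h2
  rwa [_root_.map_mul, rr_L, rr_up] at h3

theorem compat_id (e : A → ℚ) : Compat e (MonoidHom.id (FreeGroup A)) := by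
  apply compat_of
  intro a
  simp [eta]

/-- An element commuting with `u` and of weight zero is trivial as soon as `u` has non-zero
weight. -/
theorem eq_one_of_commute (e : A → ℚ) {b c : FreeGroup A} (h : b * c = c * b)
    (hc : chi e c = 1) (hb : chi e b ≠ 1) : c = 1 := by
  obtain ⟨g, hg⟩ := master e (MonoidHom.id _) (compat_id e) h hc hb
  simp only [MonoidHom.id_apply] at hg
  exact (mul_eq_right.mp hg.symm)

end Pool.Agent.H53.CE
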