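import Pool.Agent.H53.CE.Key

namespace Pool.Agent.H53.CE

open FreeGroup

set_option linter.unusedSectionVars false

/-- The inner automorphisms. -/
abbrev Inn (H : Type) [Group H] : Subgroup (MulAut H) := (MulAut.conj : H →* MulAut H).range

theorem conj_conj {H : Type} [Group H] (f : MulAut H) (g : H) :
    f * MulAut.conj g * f⁻¹ = MulAut.conj (f g) := by
  ext x
  simp [MulAut.mul_apply]

instance innNormal (H : Type) [Group H] : (Inn H).Normal where
  conj_mem := by
    rintro _ ⟨g, rfl⟩ f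
    exact ⟨f g, (conj_conj f g).symm⟩

/-- The outer automorphism group. -/
abbrev Out (H : Type) [Group H] := MulAut H ⧸ Inn H

variable {X Y : Type}

theorem pX_mk (z : Y) (s : FreeGroup X →* FreeGroup X) (u : FreeGroup (X ⊕ Y)) :
    pX (mk (of (Sum.inr z)) s u) = s (pX u) := by
  have : pX.comp (mk (of (Sum.inr z)) s) = s.comp (pX : FreeGroup (X ⊕ Y) →* FreeGroup X) := by
    refine FreeGroup.ext_hom _ _ (fun a => ?_)
    rcases a with x | y
    · simp [pX_iX]
    · simp
  exact DFunLike.congr_fun this u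

theorem mk_kap (t : FreeGroup (X ⊕ Y)) (s : FreeGroup X →* FreeGroup X)
    (u : FreeGroup (X ⊕ Y)) : mk t s (kap u) = kap u := by
  have : (mk t s).comp kap = kap := by
    refine FreeGroup.ext_hom _ _ (fun a => ?_)
    rcases a with x | y <;> simp
  exact DFunLike.congr_fun this u

theorem mk_comp (t t' : FreeGroup (X ⊕ Y)) (s s' : FreeGroup X →* FreeGroup X)
    (ht : mk t s t' = t') (htt : t' * t = 1) (hs : s.comp s' = MonoidHom.id _) :
    (mk t s).comp (mk t' s') = MonoidHom.id _ := by
  refine FreeGroup.ext_hom _ _ (fun a => ?_)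
  rcases a with x | y
  · have h1 : s (s' (of x)) = of x := DFunLike.congr_fun hs (of x)
    have h2 : t = t'⁻¹ := (inv_eq_of_mul_eq_one_right htt).symm
    rw [MonoidHom.comp_apply, mk_inl, _root_.map_mul, _root_.map_mul, _root_.map_inv, ht, mk_iX,
      h1, h2]
    simp [mul_assoc]
  · simp

/-- The marked automorphism `x ↦ z σ(x) z⁻¹`, `y ↦ y`. -/
def mark (z : Y) (σ : MulAut (FreeGroup X)) : MulAut (FreeGroup (X ⊕ Y)) :=
  MonoidHom.toMulEquiv (mk (of (Sum.inr z)) σ.toMonoidHom)
    (mk (of (Sum.inr z))⁻¹ σ.symm.toMonoidHom)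
    (mk_comp _ _ _ _ (by simp) (by simp) (by ext x; simp))
    (mk_comp _ _ _ _ (by simp) (by simp) (by ext x; simp))

theorem mark_apply (z : Y) (σ : MulAut (FreeGroup X)) (u : FreeGroup (X ⊕ Y)) :
    mark z σ u = mk (of (Sum.inr z)) σ.toMonoidHom u := rfl

/-- The extension by the identity. -/
def extHom (s : FreeGroup X →* FreeGroup X) : FreeGroup (X ⊕ Y) →* FreeGroup (X ⊕ Y) := mk 1 s

theorem extHom_comp (s s' : FreeGroup X →* FreeGroup X) :
    (extHom (Y := Y) s).comp (extHom s') = extHom (s.comp s') := by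
  refine FreeGroup.ext_hom _ _ (fun a => ?_)
  rcases a with x | y
  · simp [extHom, mk_iX]
  · simp [extHom]

/-- The extension of an automorphism by the identity. -/
def ext (Y : Type) : MulAut (FreeGroup X) →* MulAut (FreeGroup (X ⊕ Y)) where
  toFun α := MonoidHom.toMulEquiv (extHom α.toMonoidHom) (extHom α.symm.toMonoidHom)
    (by
      rw [extHom_comp]
      refine FreeGroup.ext_hom _ _ (fun a => ?_)
      rcases a with x | y <;> simp [extHom])
    (by
      rw [extHom_comp]
      refine FreeGroup.ext_hom _ _ (fun a => ?_)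
      rcases a with x | y <;> simp [extHom])
  map_one' := by
    apply MulEquiv.toMonoidHom_injective
    refine FreeGroup.ext_hom _ _ (fun a => ?_)
    rcases a with x | y
    · change extHom (MulEquiv.toMonoidHom (1 : MulAut (FreeGroup X))) (of (Sum.inl x)) = of (Sum.inl x)
      simp [extHom]
    · change extHom (MulEquiv.toMonoidHom (1 : MulAut (FreeGroup X))) (of (Sum.inr y)) = of (Sum.inr y)
      simp [extHom]
  map_mul' α β := by
    apply MulEquiv.toMonoidHom_injective
    have h := extHom_comp (Y := Y) α.toMonoidHom β.toMonoidHom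
    exact h.symm

theorem ext_apply (α : MulAut (FreeGroup X)) (u : FreeGroup (X ⊕ Y)) :
    ext Y α u = extHom α.toMonoidHom u := rfl

theorem ext_mark (z : Y) (α σ : MulAut (FreeGroup X)) (h : α * σ = σ * α) :
    ext Y α * mark z σ = mark z σ * ext Y α := by
  apply MulEquiv.toMonoidHom_injective
  refine FreeGroup.ext_hom _ _ (fun a => ?_)
  rcases a with x | y
  · change extHom α.toMonoidHom (mk (of (Sum.inr z)) σ.toMonoidHom (of (Sum.inl x)))
      = mk (of (Sum.inr z)) σ.toMonoidHom (extHom α.toMonoidHom (of (Sum.inl x)))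
    have h1 : α (σ (of x)) = σ (α (of x)) := by
      have := DFunLike.congr_fun h (of x)
      simpa [MulAut.mul_apply] using this
    simp [extHom, mk_iX, h1]
  · change extHom α.toMonoidHom (mk (of (Sum.inr z)) σ.toMonoidHom (of (Sum.inr y)))
      = mk (of (Sum.inr z)) σ.toMonoidHom (extHom α.toMonoidHom (of (Sum.inr y)))
    simp [extHom]

/-- The automorphisms commuting with all marked automorphisms. -/
abbrev CA (z : Y) (S : Set (MulAut (FreeGroup X))) : Subgroup (MulAut (FreeGroup (X ⊕ Y))) :=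
  Subgroup.centralizer (mark z '' S)

/-- The set of classes of the marked automorphisms. -/
abbrev SO (z : Y) (S : Set (MulAut (FreeGroup X))) : Set (Out (FreeGroup (X ⊕ Y))) :=
  (fun σ => (QuotientGroup.mk (mark z σ) : Out (FreeGroup (X ⊕ Y)))) '' S

section

variable {z : Y} {S : Set (MulAut (FreeGroup X))}

theorem comm_of_mem {β : MulAut (FreeGroup (X ⊕ Y))} (hβ : β ∈ CA z S)
    {σ : MulAut (FreeGroup X)} (hσ : σ ∈ S) (u : FreeGroup (X ⊕ Y)) :
    mark z σ (β u) = β (mark z σ u) := by
  have h := Subgroup.mem_centralizer_iff.mp hβ (mark z σ) ⟨σ, hσ, rfl⟩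
  have := DFunLike.congr_fun h u
  simpa [MulAut.mul_apply] using this

theorem kap_of_comm [DecidableEq Y] {σ : MulAut (FreeGroup X)}
    {β : MulAut (FreeGroup (X ⊕ Y))} (h : ∀ u, mark z σ (β u) = β (mark z σ u)) (y : Y) :
    kap (β (of (Sum.inr y))) = β (of (Sum.inr y)) := by
  apply fix_eq_kap z σ.toMonoidHom
  have := h (of (Sum.inr y))
  rw [mark_apply, mark_apply, mk_inr] at this
  exact this

/-- The induced endomorphism of the quotient. -/
def bar (β : MulAut (FreeGroup (X ⊕ Y))) : FreeGroup X →* FreeGroup X :=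
  pX.comp (β.toMonoidHom.comp iX)

theorem bar_apply (β : MulAut (FreeGroup (X ⊕ Y))) (v : FreeGroup X) :
    bar β v = pX (β (iX v)) := rfl

theorem pX_beta [DecidableEq Y] (hS : S.Nonempty) {β : MulAut (FreeGroup (X ⊕ Y))}
    (hβ : β ∈ CA z S) (u : FreeGroup (X ⊕ Y)) : pX (β u) = bar β (pX u) := by
  obtain ⟨σ, hσ⟩ := hS
  have : pX.comp β.toMonoidHom = (bar β).comp (pX : FreeGroup (X ⊕ Y) →* FreeGroup X) := by
    refine FreeGroup.ext_hom _ _ (fun a => ?_)
    rcases a with x | y
    · simp [bar]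
    · have h := kap_of_comm (comm_of_mem hβ hσ) y
      rw [MonoidHom.comp_apply, MonoidHom.comp_apply, pX_inr, _root_.map_one]
      change pX (β (of (Sum.inr y))) = 1
      rw [← h, pX_kap]
  exact DFunLike.congr_fun this u

theorem bar_mul [DecidableEq Y] (hS : S.Nonempty) {β γ : MulAut (FreeGroup (X ⊕ Y))}
    (hβ : β ∈ CA z S) : bar (β * γ) = (bar β).comp (bar γ) := by
  refine MonoidHom.ext (fun v => ?_)
  rw [bar_apply, MonoidHom.comp_apply, MulAut.mul_apply, pX_beta hS hβ, ← bar_apply]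

theorem bar_one : bar (1 : MulAut (FreeGroup (X ⊕ Y))) = MonoidHom.id _ := by
  refine MonoidHom.ext (fun v => ?_)
  rw [bar_apply, MulAut.one_apply, pX_iX]
  rfl

theorem bar_comm [DecidableEq Y] (hS : S.Nonempty) {β : MulAut (FreeGroup (X ⊕ Y))}
    (hβ : β ∈ CA z S) {σ : MulAut (FreeGroup X)} (hσ : σ ∈ S) (v : FreeGroup X) :
    bar β (σ v) = σ (bar β v) := by
  have h := comm_of_mem hβ hσ (iX v)
  have h2 := congrArg pX h
  rw [mark_apply, pX_mk, mark_apply, pX_beta hS hβ (iX v), pX_beta hS hβ (mk _ _ _), pX_mk,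
    pX_iX] at h2
  exact h2.symm

/-- The map `C_Aut(marked) → C_Aut(S)`. -/
def rho [DecidableEq Y] (z : Y) (S : Set (MulAut (FreeGroup X))) (hS : S.Nonempty) :
    CA z S →* Subgroup.centralizer S where
  toFun β := ⟨MonoidHom.toMulEquiv (bar β.1) (bar (β⁻¹).1)
      (by
        rw [← bar_mul hS (β⁻¹).2, ← Subgroup.coe_mul, inv_mul_cancel, Subgroup.coe_one, bar_one])
      (by
        rw [← bar_mul hS β.2, ← Subgroup.coe_mul, mul_inv_cancel, Subgroup.coe_one, bar_one]),
    by
      rw [Subgroup.mem_centralizer_iff]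
      intro σ hσ
      refine MulEquiv.ext (fun v => ?_)
      rw [MulAut.mul_apply, MulAut.mul_apply]
      exact (bar_comm hS β.2 hσ v).symm⟩
  map_one' := by
    apply Subtype.ext
    apply MulEquiv.toMonoidHom_injective
    exact bar_one
  map_mul' β γ := by
    apply Subtype.ext
    apply MulEquiv.toMonoidHom_injective
    exact bar_mul hS β.2

theorem rho_apply [DecidableEq Y] (hS : S.Nonempty) (β : CA z S) (v : FreeGroup X) :
    (rho z S hS β).1 v = bar β.1 v := rfl

/-- The map `C_Aut(S) → C_Aut(marked)`. -/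
def iot (z : Y) (S : Set (MulAut (FreeGroup X))) : Subgroup.centralizer S →* CA z S :=
  ((ext Y).comp (Subgroup.centralizer S).subtype).codRestrict (CA z S) (by
    intro α
    rw [Subgroup.mem_centralizer_iff]
    rintro _ ⟨σ, hσ, rfl⟩
    have h := Subgroup.mem_centralizer_iff.mp α.2 σ hσ
    exact (ext_mark z α.1 σ h.symm).symm)

theorem rho_iot [DecidableEq Y] (hS : S.Nonempty) (α : Subgroup.centralizer S) :
    rho z S hS (iot z S α) = α := by
  apply Subtype.ext
  refine MulEquiv.ext (fun v => ?_)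
  rw [rho_apply, bar_apply]
  change pX (extHom α.1.toMonoidHom (iX v)) = α.1 v
  rw [extHom, mk_iX]
  simp [pX_iX]

/-- The map `C_Aut(marked) → C_Out(classes)`. -/
def qq (z : Y) (S : Set (MulAut (FreeGroup X))) :
    CA z S →* Subgroup.centralizer (SO z S) :=
  ((QuotientGroup.mk' (Inn (FreeGroup (X ⊕ Y)))).comp (CA z S).subtype).codRestrict _ (by
    intro β
    rw [Subgroup.mem_centralizer_iff]
    rintro _ ⟨σ, hσ, rfl⟩
    have h := Subgroup.mem_centralizer_iff.mp β.2 (mark z σ) ⟨σ, hσ, rfl⟩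
    exact congrArg (QuotientGroup.mk' (Inn (FreeGroup (X ⊕ Y)))) h)

theorem exists_conj {g m : MulAut (FreeGroup (X ⊕ Y))}
    (h : (QuotientGroup.mk m : Out (FreeGroup (X ⊕ Y))) * QuotientGroup.mk g
      = QuotientGroup.mk g * QuotientGroup.mk m) :
    ∃ c, ∀ u, g (m u) = c * m (g u) * c⁻¹ := by
  have h1 : (QuotientGroup.mk (g * m * (m * g)⁻¹) : Out (FreeGroup (X ⊕ Y))) = 1 := by
    rw [QuotientGroup.mk_mul, QuotientGroup.mk_mul, QuotientGroup.mk_inv, QuotientGroup.mk_mul, ← h]
    group
  rw [QuotientGroup.eq_one_iff] at h1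
  obtain ⟨c, hc⟩ := h1
  refine ⟨c, fun u => ?_⟩
  have h2 : g * m = MulAut.conj c * (m * g) := by rw [hc]; group
  have := DFunLike.congr_fun h2 u
  simpa [MulAut.mul_apply] using this

variable [Fintype X] [Fintype Y]

theorem qq_surjective [DecidableEq Y] (hcard : Fintype.card X + 2 < Fintype.card Y)
    (hS : S.Nonempty) : Function.Surjective (qq z S) := by
  rintro ⟨g, hg⟩
  obtain ⟨α, rfl⟩ := QuotientGroup.mk_surjective g
  obtain ⟨σ, hσ⟩ := hS
  rw [Subgroup.mem_centralizer_iff] at hg
  obtain ⟨c, hc⟩ := exists_conj (hg _ ⟨σ, hσ, rfl⟩)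
  obtain ⟨g0, hg0⟩ := key hcard z σ.toMonoidHom α c (by
    intro y
    have h := hc (of (Sum.inr y))
    rw [mark_apply, mark_apply, mk_inr] at h
    have h' := congrArg (· * c) h
    simp only [inv_mul_cancel_right] at h'
    exact h')
  -- the corrected representative
  let β : MulAut (FreeGroup (X ⊕ Y)) := MulAut.conj g0⁻¹ * α
  have hβα : (QuotientGroup.mk β : Out (FreeGroup (X ⊕ Y))) = QuotientGroup.mk α := by
    rw [QuotientGroup.mk_mul]
    have : (QuotientGroup.mk (MulAut.conj g0⁻¹) : Out (FreeGroup (X ⊕ Y))) = 1 := by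
      rw [QuotientGroup.eq_one_iff]
      exact ⟨g0⁻¹, rfl⟩
    rw [this, one_mul]
  have hβ0 : ∀ u, mark z σ (β u) = β (mark z σ u) := by
    intro u
    have h1 : β (mark z σ u) = g0⁻¹ * α (mark z σ u) * g0 := by
      simp [β, MulAut.mul_apply]
    have h2 : β u = g0⁻¹ * α u * g0 := by simp [β, MulAut.mul_apply]
    have h3 : mark z σ g0 = c⁻¹ * g0 := by
      rw [mark_apply]
      nth_rewrite 2 [hg0]
      simp
    rw [h1, h2, hc u, _root_.map_mul, _root_.map_mul, _root_.map_inv, h3]
    group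
  have hβ0' : ∀ u, mark z σ (β⁻¹ u) = β⁻¹ (mark z σ u) := by
    intro u
    have := hβ0 (β⁻¹ u)
    rw [MulAut.apply_inv_self] at this
    rw [this, MulAut.inv_apply_self]
  have hmem : β ∈ CA z S := by
    rw [Subgroup.mem_centralizer_iff]
    rintro _ ⟨τ, hτ, rfl⟩
    have h4 := hg _ ⟨τ, hτ, rfl⟩
    rw [← hβα] at h4
    obtain ⟨c', hc'⟩ := exists_conj h4
    have h5 : c' = 1 := by
      apply centralizer_trivial hcard
      intro y
      have h6 := kap_of_comm hβ0' y
      have h7 := hc' (β⁻¹ (of (Sum.inr y)))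
      rw [MulAut.apply_inv_self, mark_apply z τ (of (Sum.inr y)), mk_inr, ← h6,
        mark_apply z τ (kap _), mk_kap, h6, MulAut.apply_inv_self] at h7
      nth_rewrite 1 [h7]
      group
    refine MulEquiv.ext (fun u => ?_)
    change mark z τ (β u) = β (mark z τ u)
    rw [hc' u, h5]
    simp
  exact ⟨⟨β, hmem⟩, Subtype.ext hβα⟩

theorem ker_le [DecidableEq Y] (hcard : Fintype.card X + 2 < Fintype.card Y)
    (hS : S.Nonempty) : (qq z S).ker ≤ (rho z S hS).ker := by
  rintro ⟨β, hβ⟩ hker
  have hS' := hS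
  obtain ⟨σ, hσ⟩ := hS'
  rw [MonoidHom.mem_ker] at hker ⊢
  have h1 : (QuotientGroup.mk β : Out (FreeGroup (X ⊕ Y))) = 1 := congrArg Subtype.val hker
  rw [QuotientGroup.eq_one_iff] at h1
  obtain ⟨g, rfl⟩ := h1
  have h2 : mark z σ g = g := by
    have h3 := comm_of_mem hβ hσ
    have h4 : (mark z σ g)⁻¹ * g = 1 := by
      apply centralizer_trivial hcard
      intro y
      have h5 := h3 (of (Sum.inr y))
      have h6 : mark z σ (of (Sum.inr y)) = of (Sum.inr y) := by rw [mark_apply, mk_inr]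
      rw [MulAut.conj_apply, MulAut.conj_apply, _root_.map_mul, _root_.map_mul, _root_.map_inv, h6]
        at h5
      have h7 := congrArg (fun t => (mark z σ g)⁻¹ * t * g) h5
      simp only [mul_assoc, inv_mul_cancel_left, inv_mul_cancel, mul_one] at h7
      simpa [mul_assoc] using h7
    have := inv_mul_eq_one.mp h4
    exact this
  have h8 : kap g = g := by
    apply fix_eq_kap z σ.toMonoidHom
    exact h2
  have h9 : pX g = 1 := by rw [← h8, pX_kap]
  apply Subtype.ext
  refine MulEquiv.ext (fun v => ?_)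
  rw [rho_apply, bar_apply]
  change pX (MulAut.conj g (iX v)) = v
  rw [MulAut.conj_apply, _root_.map_mul, _root_.map_mul, _root_.map_inv, h9, pX_iX]
  simp

/-- The centralizer of `S` in `Aut` is a retract of the centralizer of the marked classes in
`Out`. -/
theorem retract (hcard : Fintype.card X + 2 < Fintype.card Y) (z : Y)
    (S : Set (MulAut (FreeGroup X))) (hS : S.Nonempty) :
    ∃ (i : Subgroup.centralizer S →* Subgroup.centralizer (SO z S))
      (r : Subgroup.centralizer (SO z S) →* Subgroup.centralizer S), ∀ α, r (i α) = α := by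
  classical
  let r := (qq z S).liftOfSurjective (qq_surjective hcard hS) ⟨rho z S hS, ker_le hcard hS⟩
  refine ⟨(qq z S).comp (iot z S), r, fun α => ?_⟩
  have : r (qq z S (iot z S α)) = rho z S hS (iot z S α) :=
    (qq z S).liftOfRightInverse_comp_apply _ _ ⟨rho z S hS, ker_le hcard hS⟩ _
  rw [MonoidHom.comp_apply, this, rho_iot]

end

end Pool.Agent.H53.CE
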