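import Pool.Agent.H53.CE.FP

namespace Pool.Agent.H53.CE.Two2

open FreeGroup Pool.Agent.H53.CE

set_option linter.unusedSectionVars false

variable {X ι : Type} [DecidableEq ι]

/-- The letters: `some (j, x)` is the letter `x` of block `j`, and `none` is the letter `z`. -/
abbrev L (ι X : Type) := Option (ι × X)

/-- The inclusion of block `j`. -/
def q (j : ι) : FreeGroup X →* FreeGroup (L ι X) :=
  FreeGroup.map (fun x => some (j, x))

/-- The letter `z`. -/
def zz : FreeGroup (L ι X) := of none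

@[simp] theorem q_of (j : ι) (x : X) : q j (of x) = of (some (j, x)) := by simp [q]

/-- Kill all letters outside block `i`. -/
def p (i : ι) : FreeGroup (L ι X) →* FreeGroup X :=
  FreeGroup.lift (fun l => l.elim 1 (fun a => if a.1 = i then of a.2 else 1))

theorem p_some (i j : ι) (x : X) :
    p i (of (some (j, x))) = if j = i then of x else 1 := by
  rw [p, FreeGroup.lift_apply_of]; rfl

@[simp] theorem p_zz (i : ι) : p i (zz : FreeGroup (L ι X)) = 1 := by
  rw [p, zz, FreeGroup.lift_apply_of]; rfl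

theorem p_q_self (i : ι) (v : FreeGroup X) : p i (q i v) = v := by
  have : (p i).comp (q i) = MonoidHom.id (FreeGroup X) := by
    refine FreeGroup.ext_hom _ _ (fun x => ?_)
    rw [MonoidHom.comp_apply, q_of, p_some, if_pos rfl, MonoidHom.id_apply]
  exact DFunLike.congr_fun this v

theorem p_q_ne {i j : ι} (h : j ≠ i) (v : FreeGroup X) : p i (q j v) = 1 := by
  have : (p i).comp (q j) = (1 : FreeGroup X →* FreeGroup X) := by
    refine FreeGroup.ext_hom _ _ (fun x => ?_)
    rw [MonoidHom.comp_apply, q_of, p_some, if_neg h, MonoidHom.one_apply]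
  exact DFunLike.congr_fun this v

theorem hom_ext {H : Type} [Group H] {f g : FreeGroup (L ι X) →* H}
    (h1 : ∀ j x, f (q j (of x)) = g (q j (of x))) (h2 : f zz = g zz) : f = g := by
  refine FreeGroup.ext_hom _ _ (fun a => ?_)
  rcases a with _ | ⟨j, x⟩
  · exact h2
  · have := h1 j x
    rwa [q_of] at this

/-- The permutation of the letters induced by a permutation of the blocks. -/
def pl (X : Type) (π : Equiv.Perm ι) : Equiv.Perm (L ι X) :=
  Equiv.optionCongr (Equiv.prodCongr π (Equiv.refl X))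

/-- The permutation of the blocks. -/
def sh (X : Type) (π : Equiv.Perm ι) : MulAut (FreeGroup (L ι X)) :=
  FreeGroup.freeGroupCongr (pl X π)

variable (π : Equiv.Perm ι)

theorem sh_q (j : ι) (v : FreeGroup X) : sh X π (q j v) = q (π j) v := by
  have : (sh X π).toMonoidHom.comp (q j) = q (π j) := by
    refine FreeGroup.ext_hom _ _ (fun x => ?_)
    simp [sh, pl]
  exact DFunLike.congr_fun this v

theorem sh_zz : sh X π zz = zz := by
  simp [sh, pl, zz]

theorem p_sh (i : ι) (u : FreeGroup (L ι X)) : p (π i) (sh X π u) = p i u := by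
  have : (p (π i)).comp (sh X π).toMonoidHom = p i := by
    refine hom_ext (fun j x => ?_) ?_
    · rw [MonoidHom.comp_apply]
      change p (π i) (sh X π (q j (of x))) = _
      rw [sh_q]
      by_cases h : j = i
      · subst h
        rw [p_q_self, p_q_self]
      · rw [p_q_ne h, p_q_ne (fun h' => h (π.injective h'))]
    · rw [MonoidHom.comp_apply]
      change p (π i) (sh X π zz) = _
      rw [sh_zz, p_zz, p_zz]
  exact DFunLike.congr_fun this u

variable {π}

/-- The marked endomorphism. -/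
def th (o : ι) (t : FreeGroup (L ι X)) (τ : ι → ι) (s : ι → (FreeGroup X →* FreeGroup X)) :
    FreeGroup (L ι X) →* FreeGroup (L ι X) :=
  FreeGroup.lift (fun l => l.elim (of none) (fun a =>
    if a.1 = o then of (some (o, a.2)) else t * q (τ a.1) (s a.1 (of a.2)) * t⁻¹))

section

variable (o : ι) (t : FreeGroup (L ι X)) (τ : ι → ι) (s : ι → (FreeGroup X →* FreeGroup X))

theorem th_zz : th o t τ s zz = zz := by
  rw [th, zz, FreeGroup.lift_apply_of]; rfl

theorem th_qo (v : FreeGroup X) : th o t τ s (q o v) = q o v := by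
  have : (th o t τ s).comp (q o) = q o := by
    refine FreeGroup.ext_hom _ _ (fun x => ?_)
    rw [MonoidHom.comp_apply, q_of, th, FreeGroup.lift_apply_of]
    exact if_pos rfl
  exact DFunLike.congr_fun this v

theorem th_q {j : ι} (hj : j ≠ o) (v : FreeGroup X) :
    th o t τ s (q j v) = t * q (τ j) (s j v) * t⁻¹ := by
  have : (th o t τ s).comp (q j) = ((MulAut.conj t).toMonoidHom.comp (q (τ j))).comp (s j) := by
    refine FreeGroup.ext_hom _ _ (fun x => ?_)
    rw [MonoidHom.comp_apply, q_of, th, FreeGroup.lift_apply_of]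
    exact if_neg hj
  exact DFunLike.congr_fun this v

end

theorem th_comp {o : ι} {t t' : FreeGroup (L ι X)} {τ τ' : ι → ι}
    {s s' : ι → (FreeGroup X →* FreeGroup X)}
    (ht : th o t τ s t' = t') (htt : t' * t = 1) (hτo : ∀ j, j ≠ o → τ' j ≠ o)
    (hτ : ∀ j, τ (τ' j) = j) (hs : ∀ j v, s (τ' j) (s' j v) = v) :
    (th o t τ s).comp (th o t' τ' s') = MonoidHom.id _ := by
  refine hom_ext (fun j x => ?_) ?_
  · rw [MonoidHom.comp_apply, MonoidHom.id_apply]
    by_cases hj : j = o
    · subst hj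
      rw [th_qo, th_qo]
    · have h2 : t = t'⁻¹ := (inv_eq_of_mul_eq_one_right htt).symm
      rw [th_q _ _ _ _ hj, _root_.map_mul, _root_.map_mul, _root_.map_inv, ht,
        th_q _ _ _ _ (hτo j hj), hs, hτ, h2]
      simp [mul_assoc]
  · rw [MonoidHom.comp_apply, th_zz, th_zz, MonoidHom.id_apply]

/-- The diagonal endomorphism. -/
def dg (o : ι) (τ : ι → ι) (hτo : ∀ j, j ≠ o → τ j ≠ o)
    (s : ι → (FreeGroup X →* FreeGroup X)) :
    FreeGroup ({j : ι // j ≠ o} × X) →* FreeGroup ({j : ι // j ≠ o} × X) :=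
  FreeGroup.lift (fun a => FreeGroup.map (Prod.mk (⟨τ a.1.1, hτo a.1.1 a.1.2⟩ : {j : ι // j ≠ o}))
    (s a.1.1 (of a.2)))

/-- The renaming of the letters. -/
def re (o : ι) (l : L ι X) : ({j : ι // j ≠ o} × X) ⊕ (X ⊕ Unit) :=
  l.elim (Sum.inr (Sum.inr ())) (fun a =>
    if h : a.1 = o then Sum.inr (Sum.inl a.2) else Sum.inl (⟨a.1, h⟩, a.2))

/-- The renaming back. -/
def er (o : ι) : ({j : ι // j ≠ o} × X) ⊕ (X ⊕ Unit) → L ι X :=
  Sum.elim (fun a => some (a.1.1, a.2)) (Sum.elim (fun x => some (o, x)) (fun _ => none))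

theorem re_o (o : ι) (x : X) : re o (some (o, x)) = Sum.inr (Sum.inl x) := by
  simp [re]

theorem re_ne (o : ι) {j : ι} (h : j ≠ o) (x : X) :
    re o (some (j, x)) = Sum.inl (⟨j, h⟩, x) := by
  simp [re, h]

theorem er_re (o : ι) (l : L ι X) : er o (re o l) = l := by
  rcases l with _ | ⟨j, x⟩
  · rfl
  · by_cases h : j = o
    · subst h
      rw [re_o]; rfl
    · rw [re_ne o h]; rfl

theorem re_q (o : ι) {j : ι} (h : j ≠ o) (v : FreeGroup X) :
    FreeGroup.map (re o) (q j v)
      = iX (FreeGroup.map (Prod.mk (⟨j, h⟩ : {j : ι // j ≠ o})) v) := by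
  have : (FreeGroup.map (re o)).comp (q j)
      = (iX : FreeGroup ({j : ι // j ≠ o} × X) →*
          FreeGroup (({j : ι // j ≠ o} × X) ⊕ (X ⊕ Unit))).comp
        (FreeGroup.map (Prod.mk (⟨j, h⟩ : {j : ι // j ≠ o}))) := by
    refine FreeGroup.ext_hom _ _ (fun x => ?_)
    simp only [MonoidHom.comp_apply, q_of, FreeGroup.map.of, iX_of]
    rw [re_ne o h]
  exact DFunLike.congr_fun this v

theorem re_th (o : ι) (τ : ι → ι) (hτo : ∀ j, j ≠ o → τ j ≠ o)
    (s : ι → (FreeGroup X →* FreeGroup X)) (u : FreeGroup (L ι X)) :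
    mk (of (Sum.inr (Sum.inr ()))) (dg o τ hτo s) (FreeGroup.map (re o) u)
      = FreeGroup.map (re o) (th o zz τ s u) := by
  have : (mk (of (Sum.inr (Sum.inr ()))) (dg o τ hτo s)).comp (FreeGroup.map (re o))
      = (FreeGroup.map (re o)).comp (th o zz τ s) := by
    refine hom_ext (fun j x => ?_) ?_
    · rw [MonoidHom.comp_apply, MonoidHom.comp_apply]
      by_cases h : j = o
      · subst h
        rw [th_qo, q_of, FreeGroup.map.of, re_o]
        exact mk_inr _ _ _
      · have h2 : FreeGroup.map (re o) (zz : FreeGroup (L ι X)) = of (Sum.inr (Sum.inr ())) := by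
          rw [zz, FreeGroup.map.of]; rfl
        rw [th_q _ _ _ _ h, _root_.map_mul, _root_.map_mul, _root_.map_inv, re_q o h,
          re_q o (hτo j h), h2, FreeGroup.map.of, iX_of, mk_inl, dg, FreeGroup.lift_apply_of]
    · rw [MonoidHom.comp_apply, MonoidHom.comp_apply, th_zz, zz, FreeGroup.map.of]
      exact mk_inr _ _ _
  exact DFunLike.congr_fun this u

/-- A fixed point of `T` has trivial image in every marked block. -/
theorem p_fix (o : ι) (τ : ι → ι) (hτo : ∀ j, j ≠ o → τ j ≠ o)
    (s : ι → (FreeGroup X →* FreeGroup X)) {i : ι} (hi : i ≠ o) {u : FreeGroup (L ι X)}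
    (h : th o zz τ s u = u) : p i u = 1 := by
  classical
  have h1 : mk (of (Sum.inr (Sum.inr ()))) (dg o τ hτo s) (FreeGroup.map (re o) u)
      = FreeGroup.map (re o) u := by
    rw [re_th, h]
  have h2 := fix_eq_kap (X := {j : ι // j ≠ o} × X) (Y := X ⊕ Unit) (Sum.inr ())
    (dg o τ hτo s) h1
  have h3 : (p i).comp ((FreeGroup.map (er o)).comp
      (kap : FreeGroup (({j : ι // j ≠ o} × X) ⊕ (X ⊕ Unit)) →*
        FreeGroup (({j : ι // j ≠ o} × X) ⊕ (X ⊕ Unit)))) = 1 := by
    refine FreeGroup.ext_hom _ _ (fun a => ?_)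
    rw [MonoidHom.comp_apply, MonoidHom.comp_apply, MonoidHom.one_apply]
    rcases a with a | x | y
    · rw [kap_inl, _root_.map_one, _root_.map_one]
    · rw [kap_inr, FreeGroup.map.of]
      change p i (of (some (o, x))) = 1
      rw [p_some, if_neg hi.symm]
    · rw [kap_inr, FreeGroup.map.of]
      exact p_zz _
  have h4 : FreeGroup.map (er o) (FreeGroup.map (re o) u) = u := by
    have : (FreeGroup.map (er o)).comp (FreeGroup.map (re o))
        = MonoidHom.id (FreeGroup (L ι X)) := by
      refine FreeGroup.ext_hom _ _ (fun a => ?_)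
      rw [MonoidHom.comp_apply, FreeGroup.map.of, FreeGroup.map.of, er_re, MonoidHom.id_apply]
    exact DFunLike.congr_fun this u
  have h5 := DFunLike.congr_fun h3 (FreeGroup.map (re o) u)
  rw [MonoidHom.comp_apply, MonoidHom.comp_apply, h2, h4, MonoidHom.one_apply] at h5
  exact h5

/-- The combinatorial data: a base block `o`, permutations `π` and `τ` of the blocks, and an
automorphism for every block. -/
structure Data (ι X : Type) where
  /-- the base block -/
  o : ι
  /-- the permutation of `P` -/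
  π : Equiv.Perm ι
  /-- the permutation of `T` -/
  τ : Equiv.Perm ι
  /-- the automorphisms used in `T` -/
  s : ι → MulAut (FreeGroup X)
  τo : τ o = o
  πo : π.symm o ≠ o
  ind : ∀ Q : ι → Prop, Q o → (∀ j, Q j → Q (π j)) →
    (∀ j, j ≠ o → s j = 1 → Q j → Q (τ j)) → ∀ j, Q j

namespace Data

variable (D : Data ι X)

theorem τ_ne {j : ι} (h : j ≠ D.o) : D.τ j ≠ D.o := fun e =>
  h (D.τ.injective (by rw [e, D.τo]))

theorem τs_ne {j : ι} (h : j ≠ D.o) : D.τ.symm j ≠ D.o := fun e =>
  h (by rw [← D.τo, ← e, Equiv.apply_symm_apply])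

/-- The automorphism `T`. -/
def T : MulAut (FreeGroup (L ι X)) :=
  MonoidHom.toMulEquiv (th D.o zz D.τ (fun j => (D.s j).toMonoidHom))
    (th D.o zz⁻¹ D.τ.symm (fun j => (D.s (D.τ.symm j)).symm.toMonoidHom))
    (th_comp (by rw [th_zz]) (by simp) (fun j h => D.τ_ne h) (fun j => by simp)
      (fun j v => by simp))
    (th_comp (by rw [_root_.map_inv, th_zz]) (by simp) (fun j h => D.τs_ne h) (fun j => by simp)
      (fun j v => by simp))

theorem T_zz : D.T zz = zz :=
  th_zz D.o zz D.τ (fun j => (D.s j).toMonoidHom)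

theorem T_qo (v : FreeGroup X) : D.T (q D.o v) = q D.o v :=
  th_qo D.o zz D.τ (fun j => (D.s j).toMonoidHom) v

theorem T_q {j : ι} (h : j ≠ D.o) (v : FreeGroup X) :
    D.T (q j v) = zz * q (D.τ j) (D.s j v) * zz⁻¹ :=
  th_q D.o zz D.τ (fun j => (D.s j).toMonoidHom) h v

theorem p_T {i : ι} (hi : i ≠ D.o) (u : FreeGroup (L ι X)) :
    p (D.τ i) (D.T u) = D.s i (p i u) := by
  have : (p (D.τ i)).comp D.T.toMonoidHom = (D.s i).toMonoidHom.comp (p i) := by
    refine hom_ext (fun j x => ?_) ?_
    · change p (D.τ i) (D.T (q j (of x))) = D.s i (p i (q j (of x)))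
      by_cases hj : j = D.o
      · subst hj
        rw [T_qo, p_q_ne (D.τ_ne hi).symm, p_q_ne hi.symm, _root_.map_one]
      · rw [T_q D hj, _root_.map_mul, _root_.map_mul, _root_.map_inv, p_zz]
        by_cases h : j = i
        · subst h
          rw [p_q_self, p_q_self]
          simp
        · have h' : D.τ j ≠ D.τ i := fun e => h (D.τ.injective e)
          rw [p_q_ne h', p_q_ne h, _root_.map_one]
          simp
    · change p (D.τ i) (D.T zz) = D.s i (p i zz)
      rw [T_zz, p_zz, p_zz, _root_.map_one]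
  exact DFunLike.congr_fun this u

theorem p_To (u : FreeGroup (L ι X)) : p D.o (D.T u) = p D.o u := by
  have : (p D.o).comp D.T.toMonoidHom = p D.o := by
    refine hom_ext (fun j x => ?_) ?_
    · change p D.o (D.T (q j (of x))) = p D.o (q j (of x))
      by_cases hj : j = D.o
      · subst hj
        rw [T_qo]
      · rw [T_q D hj, _root_.map_mul, _root_.map_mul, _root_.map_inv, p_zz,
          p_q_ne (D.τ_ne hj), p_q_ne hj]
        simp
    · change p D.o (D.T zz) = p D.o zz
      rw [T_zz]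
  exact DFunLike.congr_fun this u

/-- The centralizer of `P` and `T`. -/
abbrev CT : Subgroup (MulAut (FreeGroup (L ι X))) := Subgroup.centralizer {sh X D.π, D.T}

variable {D}

theorem comm_sh {β : MulAut (FreeGroup (L ι X))} (hβ : β ∈ D.CT) (u : FreeGroup (L ι X)) :
    sh X D.π (β u) = β (sh X D.π u) := by
  have h := Subgroup.mem_centralizer_iff.mp hβ (sh X D.π) (by simp)
  have := DFunLike.congr_fun h u
  simpa [MulAut.mul_apply] using this

theorem comm_T {β : MulAut (FreeGroup (L ι X))} (hβ : β ∈ D.CT) (u : FreeGroup (L ι X)) :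
    D.T (β u) = β (D.T u) := by
  have h := Subgroup.mem_centralizer_iff.mp hβ D.T (by simp)
  have := DFunLike.congr_fun h u
  simpa [MulAut.mul_apply] using this

variable (D) in
/-- The induced endomorphism. -/
def br (β : MulAut (FreeGroup (L ι X))) : FreeGroup X →* FreeGroup X :=
  (p D.o).comp (β.toMonoidHom.comp (q D.o))

theorem br_apply (β : MulAut (FreeGroup (L ι X))) (v : FreeGroup X) :
    D.br β v = p D.o (β (q D.o v)) := rfl

theorem p_ne_fix {β : MulAut (FreeGroup (L ι X))} (hβ : β ∈ D.CT) {i : ι} (hi : i ≠ D.o)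
    {u : FreeGroup (L ι X)} (hu : D.T u = u) : p i (β u) = 1 := by
  apply p_fix D.o D.τ (fun j h => D.τ_ne h) (fun j => (D.s j).toMonoidHom) hi
  have := comm_T hβ u
  rw [hu] at this
  exact this

theorem p_zz_all {β : MulAut (FreeGroup (L ι X))} (hβ : β ∈ D.CT)
    (i : ι) : p i (β zz) = 1 := by
  by_cases hi : i = D.o
  · subst hi
    have h := comm_sh hβ zz
    rw [sh_zz] at h
    have h2 := p_sh (π := D.π) (D.π.symm D.o) (β zz)
    rw [h, Equiv.apply_symm_apply] at h2
    rw [h2]
    exact p_ne_fix hβ D.πo D.T_zz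
  · exact p_ne_fix hβ hi D.T_zz

theorem p_all {β : MulAut (FreeGroup (L ι X))} (hβ : β ∈ D.CT) (j : ι) :
    (∀ i : ι, j ≠ i → ∀ v : FreeGroup X, p i (β (q j v)) = 1) ∧
      ∀ v : FreeGroup X, p j (β (q j v)) = D.br β v := by
  refine D.ind (fun j => (∀ i : ι, j ≠ i → ∀ v : FreeGroup X, p i (β (q j v)) = 1) ∧
      ∀ v : FreeGroup X, p j (β (q j v)) = D.br β v) ?_ ?_ ?_ j
  · exact ⟨fun i hi v => p_ne_fix hβ hi.symm (D.T_qo v), fun v => rfl⟩
  · rintro j ⟨ih1, ih2⟩
    refine ⟨fun i hi v => ?_, fun v => ?_⟩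
    · have h := p_sh (π := D.π) (D.π.symm i) (β (q j v))
      rw [Equiv.apply_symm_apply, comm_sh hβ, sh_q] at h
      rw [h]
      exact ih1 _ (fun e => hi (by rw [e, Equiv.apply_symm_apply])) v
    · have h := p_sh (π := D.π) j (β (q j v))
      rw [comm_sh hβ, sh_q] at h
      rw [h, ih2 v]
  · rintro j hj hs ⟨ih1, ih2⟩
    have key : ∀ (i : ι), i ≠ D.o → ∀ v : FreeGroup X,
        p (D.τ i) (β (q (D.τ j) v)) = D.s i (p i (β (q j v))) := by
      intro i hi v
      have h := congrArg (p (D.τ i)) (comm_T hβ (q j v))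
      rw [D.p_T hi, D.T_q hj, hs, MulAut.one_apply, _root_.map_mul, _root_.map_mul,
        _root_.map_inv, _root_.map_mul, _root_.map_mul, _root_.map_inv, p_zz_all hβ] at h
      rw [h]
      simp
    refine ⟨fun i hi v => ?_, fun v => ?_⟩
    · by_cases hio : i = D.o
      · have h := congrArg (p D.o) (comm_T hβ (q j v))
        rw [D.p_To, D.T_q hj, hs, MulAut.one_apply, _root_.map_mul, _root_.map_mul,
          _root_.map_inv, _root_.map_mul, _root_.map_mul, _root_.map_inv, p_zz_all hβ,
          ih1 D.o hj] at h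
        rw [hio]
        simpa using h.symm
      · have h := key (D.τ.symm i) (D.τs_ne hio) v
        rw [Equiv.apply_symm_apply] at h
        rw [h, ih1 _ (fun e => hi (by rw [e, Equiv.apply_symm_apply])), _root_.map_one]
    · rw [key j hj v, hs, MulAut.one_apply, ih2 v]

theorem p_br {β : MulAut (FreeGroup (L ι X))} (hβ : β ∈ D.CT) (i : ι)
    (u : FreeGroup (L ι X)) : p i (β u) = D.br β (p i u) := by
  have : (p i).comp β.toMonoidHom = (D.br β).comp (p i) := by
    refine hom_ext (fun j x => ?_) ?_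
    · change p i (β (q j (of x))) = D.br β (p i (q j (of x)))
      by_cases h : j = i
      · subst h
        rw [p_q_self, (p_all hβ j).2]
      · rw [p_q_ne h, (p_all hβ j).1 i h, _root_.map_one]
    · change p i (β zz) = D.br β (p i zz)
      rw [p_zz, p_zz_all hβ, _root_.map_one]
  exact DFunLike.congr_fun this u

theorem br_mul {β γ : MulAut (FreeGroup (L ι X))} (hβ : β ∈ D.CT) :
    D.br (β * γ) = (D.br β).comp (D.br γ) := by
  refine MonoidHom.ext (fun v => ?_)
  rw [br_apply, MonoidHom.comp_apply, MulAut.mul_apply, p_br hβ, ← br_apply]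

theorem br_one : D.br (1 : MulAut (FreeGroup (L ι X))) = MonoidHom.id _ := by
  refine MonoidHom.ext (fun v => ?_)
  rw [br_apply, MulAut.one_apply, p_q_self]
  rfl

theorem br_comm {β : MulAut (FreeGroup (L ι X))} (hβ : β ∈ D.CT) {i : ι} (hi : i ≠ D.o)
    (v : FreeGroup X) : D.br β (D.s i v) = D.s i (D.br β v) := by
  have h := congrArg (p (D.τ i)) (comm_T hβ (q i v))
  rw [D.p_T hi, p_br hβ, p_br hβ, D.p_T hi, p_q_self] at h
  exact h.symm

variable (D) in
/-- The retraction `C({P, T}) → C(S)`. -/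
def ret (S : Set (MulAut (FreeGroup X))) (hS : ∀ σ ∈ S, ∃ i, i ≠ D.o ∧ D.s i = σ) :
    D.CT →* Subgroup.centralizer S where
  toFun β := ⟨MonoidHom.toMulEquiv (D.br β.1) (D.br (β⁻¹).1)
      (by
        rw [← br_mul (β⁻¹).2, ← Subgroup.coe_mul, inv_mul_cancel, Subgroup.coe_one, br_one])
      (by
        rw [← br_mul β.2, ← Subgroup.coe_mul, mul_inv_cancel, Subgroup.coe_one, br_one]),
    by
      rw [Subgroup.mem_centralizer_iff]
      intro σ hσ
      obtain ⟨i, hi, rfl⟩ := hS σ hσ
      refine MulEquiv.ext (fun v => ?_)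
      rw [MulAut.mul_apply, MulAut.mul_apply]
      exact (br_comm β.2 hi v).symm⟩
  map_one' := by
    apply Subtype.ext
    apply MulEquiv.toMonoidHom_injective
    exact br_one
  map_mul' β γ := by
    apply Subtype.ext
    apply MulEquiv.toMonoidHom_injective
    exact br_mul β.2

theorem ret_apply (S : Set (MulAut (FreeGroup X))) (hS : ∀ σ ∈ S, ∃ i, i ≠ D.o ∧ D.s i = σ)
    (β : D.CT) (v : FreeGroup X) : (D.ret S hS β).1 v = D.br β.1 v := rfl

end Data

/-- The diagonal action on the blocks. -/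
def di (α : FreeGroup X →* FreeGroup X) : FreeGroup (L ι X) →* FreeGroup (L ι X) :=
  FreeGroup.lift (fun l => l.elim (of none) (fun a => q a.1 (α (of a.2))))

theorem di_zz (α : FreeGroup X →* FreeGroup X) : di (ι := ι) α zz = zz := by
  rw [di, zz, FreeGroup.lift_apply_of]; rfl

theorem di_q (α : FreeGroup X →* FreeGroup X) (j : ι) (v : FreeGroup X) :
    di α (q j v) = q j (α v) := by
  have : (di α).comp (q j) = (q j).comp α := by
    refine FreeGroup.ext_hom _ _ (fun x => ?_)
    rw [MonoidHom.comp_apply, q_of, di, FreeGroup.lift_apply_of]; rfl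
  exact DFunLike.congr_fun this v

theorem di_comp (α β : FreeGroup X →* FreeGroup X) :
    (di (ι := ι) α).comp (di β) = di (α.comp β) := by
  refine hom_ext (fun j x => ?_) ?_
  · rw [MonoidHom.comp_apply, di_q, di_q, di_q]; rfl
  · rw [MonoidHom.comp_apply, di_zz, di_zz, di_zz]

theorem di_id : di (ι := ι) (MonoidHom.id (FreeGroup X)) = MonoidHom.id _ := by
  refine hom_ext (fun j x => ?_) ?_
  · rw [di_q]; rfl
  · rw [di_zz]; rfl

/-- The diagonal homomorphism. -/
def Di (ι X : Type) [DecidableEq ι] : MulAut (FreeGroup X) →* MulAut (FreeGroup (L ι X)) where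
  toFun α := MonoidHom.toMulEquiv (di α.toMonoidHom) (di α.symm.toMonoidHom)
    (by
      rw [di_comp, ← di_id]
      congr 1
      refine MonoidHom.ext (fun v => ?_)
      simp)
    (by
      rw [di_comp, ← di_id]
      congr 1
      refine MonoidHom.ext (fun v => ?_)
      simp)
  map_one' := by
    apply MulEquiv.toMonoidHom_injective
    exact di_id
  map_mul' α β := by
    apply MulEquiv.toMonoidHom_injective
    exact (di_comp α.toMonoidHom β.toMonoidHom).symm

theorem Di_q (α : MulAut (FreeGroup X)) (j : ι) (v : FreeGroup X) :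
    Di ι X α (q j v) = q j (α v) := di_q α.toMonoidHom j v

theorem Di_zz (α : MulAut (FreeGroup X)) : Di ι X α zz = zz := di_zz α.toMonoidHom

theorem Di_sh (α : MulAut (FreeGroup X)) (π : Equiv.Perm ι) :
    Di ι X α * sh X π = sh X π * Di ι X α := by
  apply MulEquiv.toMonoidHom_injective
  refine hom_ext (fun j x => ?_) ?_
  · change Di ι X α (sh X π (q j (of x))) = sh X π (Di ι X α (q j (of x)))
    rw [sh_q, Di_q, Di_q, sh_q]
  · change Di ι X α (sh X π zz) = sh X π (Di ι X α zz)
    rw [sh_zz, Di_zz, sh_zz]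

theorem Di_T (D : Data ι X) (α : MulAut (FreeGroup X))
    (h : ∀ j, j ≠ D.o → ∀ v, α (D.s j v) = D.s j (α v)) : Di ι X α * D.T = D.T * Di ι X α := by
  apply MulEquiv.toMonoidHom_injective
  refine hom_ext (fun j x => ?_) ?_
  · change Di ι X α (D.T (q j (of x))) = D.T (Di ι X α (q j (of x)))
    by_cases hj : j = D.o
    · subst hj
      rw [D.T_qo, Di_q, D.T_qo]
    · rw [D.T_q hj, _root_.map_mul, _root_.map_mul, _root_.map_inv, Di_zz, Di_q, Di_q, D.T_q hj,
        h j hj]
  · change Di ι X α (D.T zz) = D.T (Di ι X α zz)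
    rw [D.T_zz, Di_zz, D.T_zz]

/-- The inclusion `C(S) → C({P, T})`. -/
def inj (D : Data ι X) (S : Set (MulAut (FreeGroup X))) (hS : ∀ j, D.s j = 1 ∨ D.s j ∈ S) :
    Subgroup.centralizer S →* D.CT :=
  ((Di ι X).comp (Subgroup.centralizer S).subtype).codRestrict D.CT (by
    intro α
    rw [Subgroup.mem_centralizer_iff]
    intro g hg
    rcases hg with rfl | hg
    · exact (Di_sh α.1 D.π).symm
    · rw [Set.mem_singleton_iff.mp hg]
      refine (Di_T D α.1 (fun j _ v => ?_)).symm
      rcases hS j with h1 | h1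
      · rw [h1, MulAut.one_apply, MulAut.one_apply]
      · have h := Subgroup.mem_centralizer_iff.mp α.2 (D.s j) h1
        exact (DFunLike.congr_fun h v).symm)

theorem ret_inj (D : Data ι X) (S : Set (MulAut (FreeGroup X)))
    (hS : ∀ σ ∈ S, ∃ i, i ≠ D.o ∧ D.s i = σ) (hS' : ∀ j, D.s j = 1 ∨ D.s j ∈ S)
    (α : Subgroup.centralizer S) : D.ret S hS (inj D S hS' α) = α := by
  apply Subtype.ext
  refine MulEquiv.ext (fun v => ?_)
  rw [Data.ret_apply, Data.br_apply]
  change p D.o (Di ι X α.1 (q D.o v)) = α.1 v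
  rw [Di_q, p_q_self]

/-! ## The blocks `(m, b)`, `0 ≤ m ≤ k`, `b` a bit -/

section Chain

variable (k : ℕ)

/-- The permutation of the blocks used for `T`. -/
def tau : Fin (k + 1) × Bool → Fin (k + 1) × Bool
  | (j, true) => Fin.lastCases (Fin.last k, true) (fun m => (m.succ, false)) j
  | (j, false) => Fin.cases (0, false) (fun m => (m.castSucc, true)) j

theorem tau_ct (m : Fin k) : tau k (m.castSucc, true) = (m.succ, false) := by
  simp [tau]

theorem tau_last : tau k (Fin.last k, true) = (Fin.last k, true) := by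
  simp [tau]

theorem tau_sf (m : Fin k) : tau k (m.succ, false) = (m.castSucc, true) := by
  simp [tau]

theorem tau_zf : tau k (0, false) = (0, false) := by
  simp [tau]

theorem tau_tau (a : Fin (k + 1) × Bool) : tau k (tau k a) = a := by
  rcases a with ⟨j, b⟩
  cases b
  · refine Fin.cases ?_ (fun m => ?_) j
    · rw [tau_zf, tau_zf]
    · rw [tau_sf, tau_ct]
  · refine Fin.lastCases ?_ (fun m => ?_) j
    · rw [tau_last, tau_last]
    · rw [tau_ct, tau_sf]

variable {k}

/-- The automorphisms used in `T`. -/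
def ss (σ : Fin k → MulAut (FreeGroup X)) : Fin (k + 1) × Bool → MulAut (FreeGroup X)
  | (_, true) => 1
  | (j, false) => Fin.cases 1 σ j

/-- The data of the chain of blocks. -/
def chain (σ : Fin k → MulAut (FreeGroup X)) : Data (Fin (k + 1) × Bool) X where
  o := (0, false)
  π := Equiv.prodCongr (Equiv.refl _) Equiv.boolNot
  τ := ⟨tau k, tau k, tau_tau k, tau_tau k⟩
  s := ss σ
  τo := tau_zf k
  πo := by simp
  ind := by
    intro Q h0 hP hT
    have hf : ∀ j : Fin (k + 1), Q (j, false) := by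
      intro j
      induction j using Fin.induction with
      | zero => exact h0
      | succ m ih =>
        have h1 := hP _ ih
        have h2 := hT (m.castSucc, true) (by simp) rfl h1
        change Q (tau k (m.castSucc, true)) at h2
        rwa [tau_ct] at h2
    rintro ⟨j, b⟩
    cases b
    · exact hf j
    · exact hP _ (hf j)

theorem chain_s (σ : Fin k → MulAut (FreeGroup X)) (m : Fin k) :
    (chain σ).s (m.succ, false) = σ m := rfl

theorem chain_s1 (σ : Fin k → MulAut (FreeGroup X)) :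
    ∀ τ ∈ Set.range σ, ∃ i, i ≠ (chain σ).o ∧ (chain σ).s i = τ := by
  rintro _ ⟨m, rfl⟩
  exact ⟨(m.succ, false), fun e => Fin.succ_ne_zero m (Prod.ext_iff.mp e).1, rfl⟩

theorem chain_s2 (σ : Fin k → MulAut (FreeGroup X)) (j : Fin (k + 1) × Bool) :
    (chain σ).s j = 1 ∨ (chain σ).s j ∈ Set.range σ := by
  rcases j with ⟨j, b⟩
  cases b
  · refine Fin.cases ?_ (fun m => ?_) j
    · exact Or.inl rfl
    · exact Or.inr ⟨m, rfl⟩
  · exact Or.inl rfl

end Chain

end Pool.Agent.H53.CE.Two2
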