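import Pool.Agent.H53.CE.Two2

namespace Pool.Agent.H53.CE.Two2

open FreeGroup Pool.Agent.H53.CE

set_option linter.unusedSectionVars false

variable {X ι : Type} [DecidableEq ι]

/-- The endomorphism which inverts `z` and fixes the blocks. -/
def bh (ι X : Type) : FreeGroup (L ι X) →* FreeGroup (L ι X) :=
  FreeGroup.lift (fun l => l.elim (of none)⁻¹ (fun a => of (some a)))

theorem bh_zz : bh ι X zz = zz⁻¹ := by
  rw [bh, zz, FreeGroup.lift_apply_of]; rfl

theorem bh_q (j : ι) (v : FreeGroup X) : bh ι X (q j v) = q j v := by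
  have : (bh ι X).comp (q j) = q j := by
    refine FreeGroup.ext_hom _ _ (fun x => ?_)
    rw [MonoidHom.comp_apply, q_of, bh, FreeGroup.lift_apply_of]; rfl
  exact DFunLike.congr_fun this v

theorem bh_bh : (bh ι X).comp (bh ι X) = MonoidHom.id _ := by
  refine hom_ext (fun j x => ?_) ?_
  · rw [MonoidHom.comp_apply, bh_q, bh_q]; rfl
  · rw [MonoidHom.comp_apply, bh_zz, _root_.map_inv, bh_zz, inv_inv]; rfl

/-- The automorphism which inverts `z` and fixes the blocks. -/
def B (ι X : Type) [DecidableEq ι] : MulAut (FreeGroup (L ι X)) :=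
  MonoidHom.toMulEquiv (bh ι X) (bh ι X) bh_bh bh_bh

theorem B_zz : B ι X zz = zz⁻¹ := bh_zz

theorem B_q (j : ι) (v : FreeGroup X) : B ι X (q j v) = q j v := bh_q j v

theorem aut_ext {f g : MulAut (FreeGroup (L ι X))} (h1 : ∀ j x, f (q j (of x)) = g (q j (of x)))
    (h2 : f zz = g zz) : f = g := by
  apply MulEquiv.toMonoidHom_injective
  exact hom_ext h1 h2

theorem B_B : B ι X * B ι X = 1 := by
  refine aut_ext (fun j x => ?_) ?_
  · rw [MulAut.mul_apply, B_q, B_q, MulAut.one_apply]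
  · rw [MulAut.mul_apply, B_zz, _root_.map_inv, B_zz, inv_inv, MulAut.one_apply]

theorem B_sh (π : Equiv.Perm ι) : Commute (sh X π) (B ι X) := by
  refine aut_ext (fun j x => ?_) ?_
  · rw [MulAut.mul_apply, MulAut.mul_apply, B_q, sh_q, B_q]
  · rw [MulAut.mul_apply, MulAut.mul_apply, B_zz, sh_zz, _root_.map_inv, sh_zz, B_zz]

theorem B_Di (α : MulAut (FreeGroup X)) : Di ι X α * B ι X = B ι X * Di ι X α := by
  refine aut_ext (fun j x => ?_) ?_
  · rw [MulAut.mul_apply, MulAut.mul_apply, B_q, Di_q, B_q]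
  · rw [MulAut.mul_apply, MulAut.mul_apply, B_zz, Di_zz, _root_.map_inv, Di_zz, B_zz]

theorem sh3 (π : Equiv.Perm ι) (hπ : ∀ j, π (π (π j)) = j) : (sh X π) ^ 3 = 1 := by
  refine aut_ext (fun j x => ?_) ?_
  · rw [pow_succ, pow_two, MulAut.mul_apply, MulAut.mul_apply, sh_q, sh_q, sh_q, hπ,
      MulAut.one_apply]
  · rw [pow_succ, pow_two, MulAut.mul_apply, MulAut.mul_apply, sh_zz, sh_zz, sh_zz,
      MulAut.one_apply]

/-- The automorphism of order `6`. -/
def hh (D : Data ι X) : MulAut (FreeGroup (L ι X)) := sh X D.π * B ι X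

/-- The involution. -/
def aa (D : Data ι X) : MulAut (FreeGroup (L ι X)) := D.T * B ι X

theorem hh_q (D : Data ι X) (j : ι) (v : FreeGroup X) : hh D (q j v) = q (D.π j) v := by
  rw [hh, MulAut.mul_apply, B_q, sh_q]

theorem hh_zz (D : Data ι X) : hh D zz = zz⁻¹ := by
  rw [hh, MulAut.mul_apply, B_zz, _root_.map_inv, sh_zz]

theorem aa_o (D : Data ι X) (v : FreeGroup X) : aa D (q D.o v) = q D.o v := by
  rw [aa, MulAut.mul_apply, B_q, D.T_qo]

theorem aa_q (D : Data ι X) {j : ι} (h : j ≠ D.o) (v : FreeGroup X) :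
    aa D (q j v) = zz * q (D.τ j) (D.s j v) * zz⁻¹ := by
  rw [aa, MulAut.mul_apply, B_q, D.T_q h]

theorem aa_zz (D : Data ι X) : aa D zz = zz⁻¹ := by
  rw [aa, MulAut.mul_apply, B_zz, _root_.map_inv, D.T_zz]

theorem hh3 (D : Data ι X) (hπ : ∀ j, D.π (D.π (D.π j)) = j) : (hh D) ^ 3 = B ι X := by
  rw [hh, (B_sh D.π).mul_pow, sh3 D.π hπ, one_mul, pow_succ, pow_two, B_B, one_mul]

theorem hh4 (D : Data ι X) (hπ : ∀ j, D.π (D.π (D.π j)) = j) : (hh D) ^ 4 = sh X D.π := by
  rw [pow_succ, hh3 D hπ, hh, ← mul_assoc, ← (B_sh D.π).eq, mul_assoc, B_B, mul_one]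

theorem hh6 (D : Data ι X) (hπ : ∀ j, D.π (D.π (D.π j)) = j) : (hh D) ^ 6 = 1 := by
  rw [show 6 = 3 * 2 from rfl, pow_mul, hh3 D hπ, pow_two, B_B]

theorem aa2 (D : Data ι X) (hτ : ∀ j, D.τ (D.τ j) = j)
    (hs : ∀ j v, D.s (D.τ j) (D.s j v) = v) : (aa D) ^ 2 = 1 := by
  rw [pow_two]
  refine aut_ext (fun j x => ?_) ?_
  · rw [MulAut.mul_apply, MulAut.one_apply]
    by_cases hj : j = D.o
    · subst hj
      rw [aa_o, aa_o]
    · rw [aa_q D hj, _root_.map_mul, _root_.map_mul, _root_.map_inv, aa_zz,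
        aa_q D (D.τ_ne hj), hτ, hs]
      simp [mul_assoc]
  · rw [MulAut.mul_apply, MulAut.one_apply, aa_zz, _root_.map_inv, aa_zz, inv_inv]

theorem le_CT (D : Data ι X) (hπ : ∀ j, D.π (D.π (D.π j)) = j) :
    Subgroup.centralizer {hh D, aa D} ≤ D.CT := by
  intro β hβ
  rw [Subgroup.mem_centralizer_iff] at hβ ⊢
  have h1 : Commute β (hh D) := (hβ (hh D) (by simp)).symm
  have h2 : Commute β (aa D) := (hβ (aa D) (by simp)).symm
  have h3 : Commute β (B ι X) := by
    rw [← hh3 D hπ]
    exact h1.pow_right 3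
  have h4 : Commute β (sh X D.π) := by
    rw [← hh4 D hπ]
    exact h1.pow_right 4
  have h5 : Commute β D.T := by
    have e : D.T = aa D * B ι X := by
      rw [aa, mul_assoc, B_B, mul_one]
    rw [e]
    exact h2.mul_right h3
  intro g hg
  rcases hg with rfl | hg
  · exact h4.symm
  · rw [Set.mem_singleton_iff.mp hg]
    exact h5.symm

/-- The inclusion `C(S) → C({h, A})`. -/
def inj3 (D : Data ι X) (S : Set (MulAut (FreeGroup X))) (hS : ∀ j, D.s j = 1 ∨ D.s j ∈ S ∨
    (D.s j)⁻¹ ∈ S) :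
    Subgroup.centralizer S →* Subgroup.centralizer {hh D, aa D} :=
  ((Di ι X).comp (Subgroup.centralizer S).subtype).codRestrict _ (by
    intro α
    have hT : Di ι X α.1 * D.T = D.T * Di ι X α.1 := by
      refine Di_T D α.1 (fun j _ v => ?_)
      rcases hS j with h1 | h1 | h1
      · rw [h1, MulAut.one_apply, MulAut.one_apply]
      · have h := Subgroup.mem_centralizer_iff.mp α.2 (D.s j) h1
        exact (DFunLike.congr_fun h v).symm
      · have h : Commute (D.s j)⁻¹ α.1 := Subgroup.mem_centralizer_iff.mp α.2 (D.s j)⁻¹ h1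
        have h' : Commute (D.s j) α.1 := Commute.inv_left_iff.mp h
        exact (DFunLike.congr_fun h'.eq v).symm
    rw [Subgroup.mem_centralizer_iff]
    intro g hg
    rcases hg with rfl | hg
    · have h1 : Commute (Di ι X α.1) (sh X D.π) := Di_sh α.1 D.π
      have h2 : Commute (Di ι X α.1) (B ι X) := B_Di α.1
      exact (h1.mul_right h2).symm
    · rw [Set.mem_singleton_iff.mp hg]
      have h1 : Commute (Di ι X α.1) D.T := hT
      have h2 : Commute (Di ι X α.1) (B ι X) := B_Di α.1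
      exact (h1.mul_right h2).symm)

/-- The retraction `C({h, A}) → C(S)`. -/
def ret3 (D : Data ι X) (hπ : ∀ j, D.π (D.π (D.π j)) = j) (S : Set (MulAut (FreeGroup X)))
    (hS : ∀ σ ∈ S, ∃ i, i ≠ D.o ∧ D.s i = σ) :
    Subgroup.centralizer {hh D, aa D} →* Subgroup.centralizer S :=
  (D.ret S hS).comp (Subgroup.inclusion (le_CT D hπ))

theorem ret3_inj3 (D : Data ι X) (hπ : ∀ j, D.π (D.π (D.π j)) = j)
    (S : Set (MulAut (FreeGroup X))) (hS : ∀ σ ∈ S, ∃ i, i ≠ D.o ∧ D.s i = σ)
    (hS' : ∀ j, D.s j = 1 ∨ D.s j ∈ S ∨ (D.s j)⁻¹ ∈ S) (α : Subgroup.centralizer S) :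
    ret3 D hπ S hS (inj3 D S hS' α) = α := by
  apply Subtype.ext
  refine MulEquiv.ext (fun v => ?_)
  rw [ret3, MonoidHom.comp_apply, Data.ret_apply, Data.br_apply]
  change p D.o (Di ι X α.1 (q D.o v)) = α.1 v
  rw [Di_q, p_q_self]

/-! ## The blocks `(m, b, r)`, `0 ≤ m ≤ k`, `b` a bit, `r` mod `3` -/

section Chain3

variable (k : ℕ)

/-- The permutation of the blocks used for `A`. -/
def star : Fin (k + 1) × Bool × Fin 3 → Fin (k + 1) × Bool × Fin 3
  | (m, false, 0) => Fin.cases (0, false, 0) (fun m' => (m'.castSucc, true, 1)) m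
  | (m, true, 1) => Fin.lastCases (Fin.last k, true, 1) (fun m' => (m'.succ, false, 0)) m
  | (m, false, 1) => (m, true, 0)
  | (m, true, 0) => (m, false, 1)
  | (m, false, 2) => (m, true, 2)
  | (m, true, 2) => (m, false, 2)

theorem star_z : star k (0, false, 0) = (0, false, 0) := by
  simp [star]

theorem star_s (m : Fin k) : star k (m.succ, false, 0) = (m.castSucc, true, 1) := by
  simp [star]

theorem star_l : star k (Fin.last k, true, 1) = (Fin.last k, true, 1) := by
  simp [star]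

theorem star_c (m : Fin k) : star k (m.castSucc, true, 1) = (m.succ, false, 0) := by
  simp [star]

theorem star_f1 (m : Fin (k + 1)) : star k (m, false, 1) = (m, true, 0) := rfl

theorem star_t0 (m : Fin (k + 1)) : star k (m, true, 0) = (m, false, 1) := rfl

theorem star_f2 (m : Fin (k + 1)) : star k (m, false, 2) = (m, true, 2) := rfl

theorem star_t2 (m : Fin (k + 1)) : star k (m, true, 2) = (m, false, 2) := rfl

theorem star_star (a : Fin (k + 1) × Bool × Fin 3) : star k (star k a) = a := by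
  obtain ⟨m, b, r⟩ := a
  cases b
  · fin_cases r
    · refine Fin.cases ?_ (fun m' => ?_) m
      · exact (congrArg _ (star_z k)).trans (star_z k)
      · exact (congrArg _ (star_s k m')).trans (star_c k m')
    · rfl
    · rfl
  · fin_cases r
    · rfl
    · refine Fin.lastCases ?_ (fun m' => ?_) m
      · exact (congrArg _ (star_l k)).trans (star_l k)
      · exact (congrArg _ (star_c k m')).trans (star_s k m')
    · rfl

variable {k}

/-- The automorphisms used in `A`. -/
def s3 (σ : Fin (k + 1) → MulAut (FreeGroup X)) :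
    Fin (k + 1) × Bool × Fin 3 → MulAut (FreeGroup X)
  | (m, false, 2) => σ m
  | (m, true, 2) => (σ m)⁻¹
  | _ => 1

theorem s3_star (σ : Fin (k + 1) → MulAut (FreeGroup X)) (a : Fin (k + 1) × Bool × Fin 3) :
    s3 σ (star k a) = (s3 σ a)⁻¹ := by
  obtain ⟨m, b, r⟩ := a
  cases b
  · fin_cases r
    · refine Fin.cases ?_ (fun m' => ?_) m
      · refine (congrArg _ (star_z k)).trans ?_
        exact inv_one.symm
      · refine (congrArg _ (star_s k m')).trans ?_
        exact inv_one.symm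
    · exact inv_one.symm
    · rfl
  · fin_cases r
    · exact inv_one.symm
    · refine Fin.lastCases ?_ (fun m' => ?_) m
      · refine (congrArg _ (star_l k)).trans ?_
        exact inv_one.symm
      · refine (congrArg _ (star_c k m')).trans ?_
        exact inv_one.symm
    · exact (inv_inv _).symm

/-- The data of the chain of blocks. -/
def chain3 (σ : Fin (k + 1) → MulAut (FreeGroup X)) : Data (Fin (k + 1) × Bool × Fin 3) X where
  o := (0, false, 0)
  π := Equiv.prodCongr (Equiv.refl _) (Equiv.prodCongr (Equiv.refl _) (Equiv.addRight 1))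
  τ := ⟨star k, star k, star_star k, star_star k⟩
  s := s3 σ
  τo := star_z k
  πo := by
    intro h
    have h2 := (Equiv.symm_apply_eq _).mp h
    have h3 : (0 : Fin 3) = 0 + 1 := congrArg (fun a : Fin (k + 1) × Bool × Fin 3 => a.2.2) h2
    exact absurd h3 (by decide)
  ind := by
    intro Q h0 hP hT
    have hr : ∀ (m : Fin (k + 1)) (b : Bool) (r : Fin 3), Q (m, b, r) → ∀ r', Q (m, b, r') := by
      intro m b r h
      have h1 : Q (m, b, r + 1) := hP _ h
      have h2 : Q (m, b, r + 1 + 1) := hP _ h1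
      intro r'
      have key : ∀ r r' : Fin 3, r' = r ∨ r' = r + 1 ∨ r' = r + 1 + 1 := by decide
      rcases key r r' with e | e | e <;> rw [e] <;> assumption
    have hft : ∀ m : Fin (k + 1), Q (m, false, 0) → Q (m, true, 0) := by
      intro m h
      have h1 := hr m false 0 h 1
      have h2 := hT (m, false, 1) (by
        intro e
        have h3 : (1 : Fin 3) = 0 := congrArg (fun a : Fin (k + 1) × Bool × Fin 3 => a.2.2) e
        exact absurd h3 (by decide)) rfl h1
      exact h2
    have hf : ∀ m : Fin (k + 1), Q (m, false, 0) := by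
      intro m
      induction m using Fin.induction with
      | zero => exact h0
      | succ m ih =>
        have h1 := hr _ true 0 (hft _ ih) 1
        have h2 := hT (m.castSucc, true, 1) (by
          intro e
          have h3 : (1 : Fin 3) = 0 := congrArg (fun a : Fin (k + 1) × Bool × Fin 3 => a.2.2) e
          exact absurd h3 (by decide)) rfl h1
        change Q (star k (m.castSucc, true, 1)) at h2
        rwa [star_c] at h2
    rintro ⟨m, b, r⟩
    cases b
    · exact hr m false 0 (hf m) r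
    · exact hr m true 0 (hft m (hf m)) r

theorem chain3_pi (σ : Fin (k + 1) → MulAut (FreeGroup X)) (j : Fin (k + 1) × Bool × Fin 3) :
    (chain3 σ).π ((chain3 σ).π ((chain3 σ).π j)) = j := by
  obtain ⟨m, b, r⟩ := j
  change (m, b, r + 1 + 1 + 1) = (m, b, r)
  have : r + 1 + 1 + 1 = r := by
    revert r
    decide
  rw [this]

theorem chain3_s1 (σ : Fin (k + 1) → MulAut (FreeGroup X)) :
    ∀ τ ∈ Set.range σ, ∃ i, i ≠ (chain3 σ).o ∧ (chain3 σ).s i = τ := by
  rintro _ ⟨m, rfl⟩
  refine ⟨(m, false, 2), fun e => ?_, rfl⟩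
  have := congrArg (fun a => a.2.2) e
  revert this
  change (2 : Fin 3) = 0 → False
  decide

theorem chain3_s2 (σ : Fin (k + 1) → MulAut (FreeGroup X)) (j : Fin (k + 1) × Bool × Fin 3) :
    (chain3 σ).s j = 1 ∨ (chain3 σ).s j ∈ Set.range σ ∨ ((chain3 σ).s j)⁻¹ ∈ Set.range σ := by
  obtain ⟨m, b, r⟩ := j
  cases b
  · fin_cases r
    · exact Or.inl rfl
    · exact Or.inl rfl
    · exact Or.inr (Or.inl ⟨m, rfl⟩)
  · fin_cases r
    · exact Or.inl rfl
    · exact Or.inl rfl
    · exact Or.inr (Or.inr ⟨m, (inv_inv _).symm⟩)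

theorem chain3_inv (σ : Fin (k + 1) → MulAut (FreeGroup X)) (j : Fin (k + 1) × Bool × Fin 3)
    (v : FreeGroup X) : (chain3 σ).s ((chain3 σ).τ j) ((chain3 σ).s j v) = v := by
  have h : (chain3 σ).s ((chain3 σ).τ j) = ((chain3 σ).s j)⁻¹ := s3_star σ j
  rw [h, MulAut.inv_apply_self]

end Chain3

end Pool.Agent.H53.CE.Two2
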