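import Mathlib

/-!
# The window argument

`K A R` is the free group on letters `(a, j)` with a level `j : R`.  For a weight `e : A → R` the
free group on `A` embeds into `K A R ⋊ R` by `a ↦ ((a, 0), e a)`.  Killing all letters outside a
window of levels is the only tool.
-/

namespace Pool.Agent.H53.CE

open FreeGroup

set_option linter.unusedSectionVars false

section Levels

variable (A : Type) (R : Type) [AddCommGroup R]

/-- The free group on the letters `(a, j)`, the level `j` in `R`. -/
abbrev K := FreeGroup (A × R)

variable {A R}

/-- Put every letter on level `j`. -/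
def lev (j : R) : FreeGroup A →* K A R := FreeGroup.map (fun a => (a, j))

@[simp] theorem lev_of (j : R) (a : A) : lev j (of a) = of (a, j) := by simp [lev]

/-- Shift all levels by `s`. -/
def sh (s : R) : K A R →* K A R := FreeGroup.map (fun p => (p.1, p.2 + s))

@[simp] theorem sh_of (s : R) (a : A) (j : R) : sh s (of (a, j)) = of (a, j + s) := by simp [sh]

theorem sh_sh (s t : R) (k : K A R) : sh s (sh t k) = sh (t + s) k := by
  have : (sh s).comp (sh t) = (sh (t + s) : K A R →* K A R) := by
    ext ⟨a, j⟩
    simp [add_assoc]
  exact DFunLike.congr_fun this k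

@[simp] theorem sh_zero (k : K A R) : sh (0 : R) k = k := by
  have : (sh (0 : R)) = MonoidHom.id (K A R) := by
    ext ⟨a, j⟩
    simp
  exact DFunLike.congr_fun this k

theorem sh_lev (s j : R) (v : FreeGroup A) : sh s (lev j v) = lev (j + s) v := by
  have : (sh s).comp (lev j) = (lev (j + s) : FreeGroup A →* K A R) := by
    ext a
    simp
  exact DFunLike.congr_fun this v

/-- The shift as an action of `Multiplicative R`. -/
def shAct : Multiplicative R →* MulAut (K A R) where
  toFun s :=
    { toFun := sh s.toAdd
      invFun := sh (-s.toAdd)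
      left_inv := fun k => by rw [sh_sh]; simp
      right_inv := fun k => by rw [sh_sh]; simp
      map_mul' := fun a b => _root_.map_mul (sh s.toAdd) a b }
  map_one' := by
    ext k
    change sh (0 : R) k = k
    simp
  map_mul' s t := by
    ext k
    change sh (s.toAdd + t.toAdd) k = sh s.toAdd (sh t.toAdd k)
    rw [sh_sh, add_comm]

@[simp] theorem shAct_apply (s : Multiplicative R) (k : K A R) : shAct s k = sh s.toAdd k := rfl

/-- The group `K ⋊ R`. -/
abbrev G (A R : Type) [AddCommGroup R] := K A R ⋊[shAct] Multiplicative R

/-- The embedding of the free group given by the weight `e`. -/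
def eta (e : A → R) : FreeGroup A →* G A R :=
  FreeGroup.lift (fun a => ⟨of (a, 0), Multiplicative.ofAdd (e a)⟩)

/-- The weight of a word. -/
def chi (e : A → R) : FreeGroup A →* Multiplicative R :=
  FreeGroup.lift (fun a => Multiplicative.ofAdd (e a))

@[simp] theorem chi_of (e : A → R) (a : A) : chi e (of a) = Multiplicative.ofAdd (e a) := by
  simp [chi]

theorem eta_right (e : A → R) (u : FreeGroup A) : (eta e u).right = chi e u := by
  have : (SemidirectProduct.rightHom).comp (eta e) = chi e := by
    ext a
    simp [eta, chi]
  exact DFunLike.congr_fun this u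

/-- The `K` part of the embedded word. -/
def L (e : A → R) (u : FreeGroup A) : K A R := (eta e u).left

theorem L_mul (e : A → R) (u v : FreeGroup A) :
    L e (u * v) = L e u * sh (chi e u).toAdd (L e v) := by
  unfold L
  rw [_root_.map_mul, SemidirectProduct.mul_left, eta_right, shAct_apply]

@[simp] theorem L_of (e : A → R) (a : A) : L e (of a) = of (a, 0) := by simp [L, eta]

/-- Forget the levels. -/
def rr : K A R →* FreeGroup A := FreeGroup.map Prod.fst

@[simp] theorem rr_of (p : A × R) : rr (of p) = of p.1 := by simp [rr]

theorem rr_sh (s : R) (k : K A R) : rr (sh s k) = rr k := by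
  have : (rr).comp (sh s) = (rr : K A R →* FreeGroup A) := by
    ext ⟨a, j⟩
    simp
  exact DFunLike.congr_fun this k

theorem rr_L (e : A → R) (u : FreeGroup A) : rr (L e u) = u := by
  let f : FreeGroup A →* FreeGroup A :=
    { toFun := fun u => rr (L e u)
      map_one' := by simp [L]
      map_mul' := fun u v => by rw [L_mul, _root_.map_mul, rr_sh] }
  have : f = MonoidHom.id _ := by
    ext a
    simp [f]
  exact DFunLike.congr_fun this u

/-- The levelwise lift of an endomorphism. -/
def up (P : FreeGroup A →* FreeGroup A) : K A R →* K A R :=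
  FreeGroup.lift (fun p => lev p.2 (P (of p.1)))

@[simp] theorem up_of (P : FreeGroup A →* FreeGroup A) (a : A) (j : R) :
    up P (of (a, j)) = lev j (P (of a)) := by simp [up]

theorem up_lev (P : FreeGroup A →* FreeGroup A) (j : R) (v : FreeGroup A) :
    up P (lev j v) = lev j (P v) := by
  have : (up P).comp (lev j) = (lev j : FreeGroup A →* K A R).comp P := by
    ext a
    simp
  exact DFunLike.congr_fun this v

theorem up_sh (P : FreeGroup A →* FreeGroup A) (s : R) (k : K A R) :
    up P (sh s k) = sh s (up P k) := by
  have : (up P).comp (sh s) = (sh s : K A R →* K A R).comp (up P) := by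
    ext ⟨a, j⟩
    simp [sh_lev]
  exact DFunLike.congr_fun this k

theorem rr_lev (j : R) (v : FreeGroup A) : rr (lev j v) = v := by
  have : (rr).comp (lev j) = MonoidHom.id (FreeGroup A) := by
    ext a
    simp
  exact DFunLike.congr_fun this v

theorem rr_up (P : FreeGroup A →* FreeGroup A) (k : K A R) : rr (up P k) = P (rr k) := by
  have : (rr).comp (up P) = P.comp (rr : K A R →* FreeGroup A) := by
    ext ⟨a, j⟩
    simp [rr_lev]
  exact DFunLike.congr_fun this k

/-- `P` is compatible with the weight `e`: the embedding intertwines `P` with its levelwise lift. -/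
def Compat (e : A → R) (P : FreeGroup A →* FreeGroup A) : Prop :=
  ∀ u, L e (P u) = up P (L e u)

theorem compat_of (e : A → R) (P : FreeGroup A →* FreeGroup A)
    (h : ∀ a, eta e (P (of a)) = ⟨lev 0 (P (of a)), Multiplicative.ofAdd (e a)⟩) :
    Compat e P := by
  have hc : ∀ s : Multiplicative R, ((up P).comp (shAct s).toMonoidHom : K A R →* K A R)
      = ((shAct (MonoidHom.id (Multiplicative R) s)).toMonoidHom).comp (up P) := by
    intro s
    ext k
    simp [up_sh, sh_lev]
  have key : (eta e).comp P
      = (SemidirectProduct.map (up P) (MonoidHom.id _) hc).comp (eta e) := by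
    ext a
    · rw [MonoidHom.comp_apply, MonoidHom.comp_apply, h a]
      simp [eta]
    · rw [MonoidHom.comp_apply, MonoidHom.comp_apply, h a]
      simp [eta]
  intro u
  have := DFunLike.congr_fun key u
  unfold L
  rw [MonoidHom.comp_apply] at this
  rw [this]
  simp

end Levels

end Pool.Agent.H53.CE
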